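import Mathlib
import Pool.Agent.H33R4.DUAL
import Pool.Agent.H33R4.Form

/-!
# Linear algebra
-/

set_option autoImplicit false

namespace Pool.Agent.R89.UP

open Polynomial Pool.Agent.H33R4

/-- independent rows over a field have a right inverse -/
theorem exists_right_inverse {F : Type} [Field F] {r n : ℕ} (b : Fin r → Fin n → F)
    (hb : ∀ c : Fin r → F, (∀ j, ∑ i, c i * b i j = 0) → c = 0) :
    ∃ D : Fin n → Fin r → F, ∀ i k, ∑ j, b i j * D j k = if i = k then 1 else 0 := by
  obtain ⟨h, G, hh, hG⟩ := DUAL.exists_dual b hb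
  refine ⟨fun j k => G j k * h⁻¹, fun i k => ?_⟩
  have h1 := hG i k
  simp only [← mul_assoc]
  rw [← Finset.sum_mul, h1]
  by_cases hik : i = k
  · rw [if_pos hik, if_pos hik, mul_inv_cancel₀ hh]
  · rw [if_neg hik, if_neg hik, zero_mul]

/-- coordinates of a relation in `AdjoinRoot` -/
theorem coord_rel {R : Type} [CommRing R] {F : R[X]} (hF : F.Monic) {r : ℕ} (P : Fin r → R[X])
    (hdeg : ∀ i j, F.natDegree ≤ j → (P i).coeff j = 0) {S : Type} [CommRing S] (φ : R →+* S)
    (w : Fin r → S)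
    (h : ∑ i, AdjoinRoot.of (F.map φ) (w i) * AdjoinRoot.mk (F.map φ) ((P i).map φ) = 0) (j : ℕ) :
    ∑ i, w i * φ ((P i).coeff j) = 0 := by
  nontriviality S
  set Q : S[X] := ∑ i, C (w i) * (P i).map φ with hQ
  have h1 : AdjoinRoot.mk (F.map φ) Q = 0 := by
    rw [hQ, map_sum]
    simp only [map_mul, AdjoinRoot.mk_C]
    exact h
  have hFm : (F.map φ).Monic := hF.map φ
  have hFn : (F.map φ).natDegree = F.natDegree := hF.natDegree_map φ
  have h2 : Q = 0 := by
    by_contra hne
    rw [AdjoinRoot.mk_eq_zero] at h1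
    refine hFm.not_dvd_of_degree_lt hne ?_ h1
    rw [degree_eq_natDegree hFm.ne_zero, hFn, degree_lt_iff_coeff_zero]
    intro m hm
    rw [hQ, finsetSum_coeff]
    refine Finset.sum_eq_zero fun i _ => ?_
    rw [coeff_C_mul, coeff_map, hdeg i m hm, map_zero, mul_zero]
  have h3 := congrArg (fun q => q.coeff j) h2
  simp only [hQ, finsetSum_coeff, coeff_C_mul, coeff_map, coeff_zero] at h3
  exact h3

/-- a matrix with a left kernel vector which is regular has determinant zero -/
theorem det_zero_of_rel {S : Type} [CommRing S] [IsDomain S] {r n : ℕ} (c : Fin r → Fin n → S)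
    (D : Fin n → Fin r → S) (w : Fin r → S) (hw : w ≠ 0) (h : ∀ j, ∑ i, w i * c i j = 0) :
    (Matrix.of fun i k => ∑ j, c i j * D j k).det = 0 := by
  rw [← Matrix.exists_vecMul_eq_zero_iff]
  refine ⟨w, hw, ?_⟩
  funext k
  simp only [Matrix.vecMul, dotProduct, Matrix.of_apply, Pi.zero_apply, Finset.mul_sum]
  rw [Finset.sum_comm]
  refine Finset.sum_eq_zero fun j _ => ?_
  have h1 : ∀ i, w i * (c i j * D j k) = (w i * c i j) * D j k := fun i => by ring
  rw [Finset.sum_congr rfl fun i _ => h1 i, ← Finset.sum_mul, h j, zero_mul]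

/-- the partial derivative with respect to the inner variable -/
noncomputable def dT (P : ℤ[X][X]) : ℤ[X][X] :=
  ∑ i ∈ P.support, monomial i (derivative (P.coeff i))

theorem dT_coeff (P : ℤ[X][X]) (j : ℕ) : (dT P).coeff j = derivative (P.coeff j) := by
  unfold dT
  rw [finsetSum_coeff]
  simp only [coeff_monomial]
  rw [Finset.sum_ite_eq' P.support j]
  split_ifs with h
  · rfl
  · rw [Polynomial.notMem_support_iff.1 h, derivative_zero]

theorem dT_add (P Q : ℤ[X][X]) : dT (P + Q) = dT P + dT Q := by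
  ext1 j
  rw [coeff_add, dT_coeff, dT_coeff, dT_coeff, coeff_add, derivative_add]

theorem dT_mul (P Q : ℤ[X][X]) : dT (P * Q) = P * dT Q + Q * dT P := by
  ext1 j
  rw [coeff_add, dT_coeff, coeff_mul, coeff_mul, mul_comm Q (dT P), coeff_mul,
    ← Finset.sum_add_distrib, derivative_sum]
  refine Finset.sum_congr rfl fun x _ => ?_
  rw [dT_coeff, dT_coeff, derivative_mul]
  ring

theorem dT_C (c : ℤ[X]) : dT (C c) = C (derivative c) := by
  ext1 j
  rw [dT_coeff, coeff_C, coeff_C]
  split_ifs <;> simp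

theorem dT_X : dT X = 0 := by
  ext1 j
  rw [dT_coeff, coeff_X]
  split_ifs <;> simp

/-- the Jacobian determinant of `P` and `f`, as a function of `P` -/
noncomputable def jac (f P : ℤ[X][X]) : ℤ[X][X] :=
  dT P * derivative f - derivative P * dT f

theorem jac_mul (f P Q : ℤ[X][X]) : jac f (P * Q) = P * jac f Q + Q * jac f P := by
  unfold jac
  rw [dT_mul, derivative_mul]
  ring

theorem jac_add (f P Q : ℤ[X][X]) : jac f (P + Q) = jac f P + jac f Q := by
  unfold jac
  rw [dT_add, derivative_add]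
  ring

theorem jac_self (f : ℤ[X][X]) : jac f f = 0 := by
  unfold jac
  ring

theorem jac_C_C (f : ℤ[X][X]) (c : ℤ) : jac f (C (C c)) = 0 := by
  unfold jac
  rw [dT_C, derivative_C, derivative_C]
  simp

theorem jac_pow (f P : ℤ[X][X]) (m : ℕ) :
    jac f (P ^ (m + 1)) = C (C ((m : ℤ) + 1)) * P ^ m * jac f P := by
  induction m with
  | zero => simp
  | succ m ih =>
    rw [pow_succ P (m + 1), jac_mul, ih]
    have : (C (C (((m + 1 : ℕ) : ℤ) + 1)) : ℤ[X][X]) = C (C ((m : ℤ) + 1)) + 1 := by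
      push_cast
      simp [map_add]
    rw [this]
    ring

end Pool.Agent.R89.UP
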