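import Mathlib
import Pool.Agent.R89.UP.Lin

/-!
# Reduction of a family modulo a prime
-/

set_option autoImplicit false

namespace Pool.Agent.R89.UP

open Polynomial Pool.Agent.H33R4

variable {p : ℕ} [hp : Fact p.Prime]

theorem spec_coeff {A : Type} [CommRing A] (t : ℤ) (P : ℤ[X][X]) (j : ℕ) :
    (spec ((t : ℤ) : A) P).coeff j = (((P.coeff j).eval t : ℤ) : A) := by
  unfold spec
  rw [coeff_map]
  have h4 := Polynomial.hom_eval₂ (P.coeff j) (RingHom.id ℤ) (Int.castRingHom A) t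
  rw [RingHom.comp_id, Polynomial.eval₂_id] at h4
  exact h4.symm

theorem spec_modByMonic {A : Type} [CommRing A] (x : A) (f : ℤ[X][X]) (hf : f.Monic) (P : ℤ[X][X]) :
    spec x (P %ₘ f) = spec x P %ₘ spec x f := by
  unfold spec
  exact Polynomial.map_modByMonic _ hf

theorem spec_mul {A : Type} [CommRing A] (x : A) (P Q : ℤ[X][X]) :
    spec x (P * Q) = spec x P * spec x Q := by
  unfold spec; rw [Polynomial.map_mul]

theorem spec_add {A : Type} [CommRing A] (x : A) (P Q : ℤ[X][X]) :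
    spec x (P + Q) = spec x P + spec x Q := by
  unfold spec; rw [Polynomial.map_add]

theorem spec_sub {A : Type} [CommRing A] (x : A) (P Q : ℤ[X][X]) :
    spec x (P - Q) = spec x P - spec x Q := by
  unfold spec; rw [Polynomial.map_sub]

theorem spec_pow {A : Type} [CommRing A] (x : A) (P : ℤ[X][X]) (m : ℕ) :
    spec x (P ^ m) = spec x P ^ m := by
  unfold spec; rw [Polynomial.map_pow]

theorem spec_one {A : Type} [CommRing A] (x : A) : spec x 1 = 1 := by
  unfold spec; rw [Polynomial.map_one]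

theorem spec_derivative {A : Type} [CommRing A] (x : A) (P : ℤ[X][X]) :
    spec x (derivative P) = derivative (spec x P) := by
  unfold spec; rw [Polynomial.derivative_map]

/-- an exponent prime to `p` -/
theorem exists_exp (f0 : (ZMod p)[X]) (hf0 : f0.Monic) (hn : 0 < f0.natDegree)
    (hsep : f0.Separable) :
    ∃ M : ℕ, 0 < M ∧ ¬ p ∣ M ∧ ∀ u w : AdjoinRoot f0, u * w = 1 → u ^ M = 1 := by
  classical
  have _ : Module.Finite (ZMod p) (AdjoinRoot f0) := hf0.finite_adjoinRoot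
  have _ : Finite (AdjoinRoot f0) := Module.finite_of_finite (ZMod p)
  have _ : Finite (AdjoinRoot f0)ˣ := inferInstance
  have hnt : Nontrivial (AdjoinRoot f0) := by
    apply AdjoinRoot.nontrivial
    intro h0
    rw [degree_eq_natDegree hf0.ne_zero] at h0
    have h1 : f0.natDegree = 0 := by exact_mod_cast h0
    omega
  have hch : CharP (AdjoinRoot f0) p :=
    charP_of_injective_algebraMap (algebraMap (ZMod p) (AdjoinRoot f0)).injective p
  refine ⟨Nat.card (AdjoinRoot f0)ˣ, Nat.card_pos, ?_, ?_⟩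
  · intro hdvd
    obtain ⟨x, hx⟩ := exists_prime_orderOf_dvd_card' p hdvd
    have h1 : x ^ orderOf x = 1 := pow_orderOf_eq_one x
    rw [hx] at h1
    have h2 : ((x : AdjoinRoot f0) - 1) ^ p = 0 := by
      rw [sub_pow_char, one_pow]
      have := congrArg Units.val h1
      rw [Units.val_pow_eq_pow_val, Units.val_one] at this
      rw [this, sub_self]
    obtain ⟨P, hP⟩ := AdjoinRoot.mk_surjective ((x : AdjoinRoot f0) - 1)
    rw [← hP, ← map_pow, AdjoinRoot.mk_eq_zero] at h2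
    have h3 : f0 ∣ P := hsep.squarefree.isRadical p P h2
    rw [← AdjoinRoot.mk_eq_zero, hP, sub_eq_zero] at h3
    have h4 : x = 1 := Units.ext h3
    rw [h4, orderOf_one] at hx
    exact hp.out.one_lt.ne hx
  · intro u w huw
    let V : (AdjoinRoot f0)ˣ := ⟨u, w, huw, by rw [mul_comm]; exact huw⟩
    have hV : V ^ Nat.card (AdjoinRoot f0)ˣ = 1 := pow_card_eq_one'
    have := congrArg Units.val hV
    rw [Units.val_pow_eq_pow_val, Units.val_one] at this
    exact this

variable (f : ℤ[X][X]) (hf : f.Monic) (hn : 0 < f.natDegree) (t₀ : ℤ)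

include hf hn in
/-- if `U ^ M = 1` modulo `p` at `t₀`, then the reduced polynomial is `1` -/
theorem spec_H {U : ℤ[X][X]} {M : ℕ}
    (hU : (AdjoinRoot.mk (spec ((t₀ : ℤ) : ZMod p) f) (spec ((t₀ : ℤ) : ZMod p) U)) ^ M = 1) :
    spec ((t₀ : ℤ) : ZMod p) (U ^ M %ₘ f) = 1 := by
  set f0 := spec ((t₀ : ℤ) : ZMod p) f with hf0
  have hm : f0.Monic := spec_monic _ hf
  have hd : f0.natDegree = f.natDegree := hf.natDegree_map _
  rw [spec_modByMonic _ f hf, spec_pow, ← hf0]
  rw [← map_pow, ← sub_eq_zero, ← map_one (AdjoinRoot.mk f0), ← map_sub, AdjoinRoot.mk_eq_zero,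
    ← Polynomial.modByMonic_eq_zero_iff_dvd hm, Polynomial.sub_modByMonic, sub_eq_zero] at hU
  rw [hU, Polynomial.modByMonic_eq_self_iff hm, degree_one,
    ← Polynomial.natDegree_pos_iff_degree_pos, hd]
  exact hn

include hf hn in
theorem H_dvd {U : ℤ[X][X]} {M : ℕ}
    (hU : (AdjoinRoot.mk (spec ((t₀ : ℤ) : ZMod p) f) (spec ((t₀ : ℤ) : ZMod p) U)) ^ M = 1)
    {t : ℤ} (ht : (p : ℤ) ∣ t - t₀) (j : ℕ) :
    (p : ℤ) ∣ ((U ^ M %ₘ f).coeff j).eval t - (if j = 0 then 1 else 0) := by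
  have h1 := congrArg (fun q => q.coeff j) (spec_H f hf hn t₀ hU)
  simp only [spec_coeff, coeff_one] at h1
  have h2 : (p : ℤ) ∣ ((U ^ M %ₘ f).coeff j).eval t - ((U ^ M %ₘ f).coeff j).eval t₀ :=
    ht.trans (Polynomial.sub_dvd_eval_sub _ _ _)
  have h3 : (p : ℤ) ∣ ((U ^ M %ₘ f).coeff j).eval t₀ - (if j = 0 then 1 else 0) := by
    rw [← ZMod.intCast_zmod_eq_zero_iff_dvd]
    rw [Int.cast_sub, h1]
    split_ifs <;> simp
  have := dvd_add h2 h3
  simpa using this

include hf hn in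
/-- the derivatives of the coordinates are independent modulo `p` -/
theorem rows_indep {r : ℕ} (U W : Fin r → ℤ[X][X]) (huw : ∀ i, f ∣ U i * W i - 1) {M : ℕ}
    (hM : 0 < M) (hMp : ¬ p ∣ M)
    (hU : ∀ i, (AdjoinRoot.mk (spec ((t₀ : ℤ) : ZMod p) f) (spec ((t₀ : ℤ) : ZMod p) (U i))) ^ M = 1)
    (hgood : ∀ c : Fin r → ZMod p, ∑ i, AdjoinRoot.of (spec ((t₀ : ℤ) : ZMod p) f) (c i) *
      AdjoinRoot.mk (spec ((t₀ : ℤ) : ZMod p) f) (spec ((t₀ : ℤ) : ZMod p) (jac f (U i) * W i)) = 0 →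
      c = 0)
    (c : Fin r → ZMod p)
    (hc : ∀ j : Fin f.natDegree, ∑ i, c i *
      (((derivative ((U i ^ M %ₘ f).coeff j)).eval t₀ : ℤ) : ZMod p) = 0) : c = 0 := by
  set f0 := spec ((t₀ : ℤ) : ZMod p) f with hf0
  obtain ⟨m, rfl⟩ : ∃ m, M = m + 1 := ⟨M - 1, by omega⟩
  have hMz : (((m + 1 : ℕ) : ZMod p)) ≠ 0 := by
    rw [Ne, ZMod.natCast_eq_zero_iff]; exact hMp
  -- the relation for one unit
  have key : ∀ i, AdjoinRoot.mk f0 (spec ((t₀ : ℤ) : ZMod p) (dT (U i ^ (m + 1) %ₘ f))) *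
      AdjoinRoot.mk f0 (derivative f0) =
      AdjoinRoot.of f0 (((m + 1 : ℕ) : ZMod p)) *
        AdjoinRoot.mk f0 (spec ((t₀ : ℤ) : ZMod p) (jac f (U i) * W i)) := by
    intro i
    have e1 : U i ^ (m + 1) = (U i ^ (m + 1) %ₘ f) + f * (U i ^ (m + 1) /ₘ f) :=
      (Polynomial.modByMonic_add_div _ f).symm
    have e2 := congrArg (jac f) e1
    rw [jac_add, jac_mul, jac_self, mul_zero, add_zero, jac_pow] at e2
    obtain ⟨κ, hκ⟩ : ∃ κ : ℤ[X][X], κ = C (C ((m : ℤ) + 1)) := ⟨_, rfl⟩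
    rw [← hκ] at e2
    have e3 := congrArg (fun P => AdjoinRoot.mk f0 (spec ((t₀ : ℤ) : ZMod p) P)) e2
    simp only [spec_mul, spec_add, spec_pow, map_mul, map_add, map_pow] at e3
    rw [← hf0, AdjoinRoot.mk_self, zero_mul, add_zero] at e3
    have e4 : AdjoinRoot.mk f0 (spec ((t₀ : ℤ) : ZMod p) (jac f (U i ^ (m + 1) %ₘ f))) =
        AdjoinRoot.mk f0 (spec ((t₀ : ℤ) : ZMod p) (dT (U i ^ (m + 1) %ₘ f))) *
          AdjoinRoot.mk f0 (derivative f0) := by
      unfold jac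
      rw [spec_sub, spec_mul, spec_mul, spec_derivative, spec_derivative,
        spec_H f hf hn t₀ (hU i), derivative_one, zero_mul, sub_zero, map_mul]
    rw [e4] at e3
    rw [← e3, spec_mul, map_mul]
    -- `u ^ m = w`
    have e5 : AdjoinRoot.mk f0 (spec ((t₀ : ℤ) : ZMod p) (U i)) *
        AdjoinRoot.mk f0 (spec ((t₀ : ℤ) : ZMod p) (W i)) = 1 := by
      obtain ⟨g, hg⟩ := huw i
      have h1 : U i * W i = f * g + 1 := by rw [← hg]; ring
      have h2 := congrArg (fun P => AdjoinRoot.mk f0 (spec ((t₀ : ℤ) : ZMod p) P)) h1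
      simp only [spec_mul, spec_add, spec_one, map_mul, map_add, map_one] at h2
      rw [← hf0, AdjoinRoot.mk_self, zero_mul, zero_add] at h2
      exact h2
    have e6 : AdjoinRoot.mk f0 (spec ((t₀ : ℤ) : ZMod p) (U i)) ^ m =
        AdjoinRoot.mk f0 (spec ((t₀ : ℤ) : ZMod p) (W i)) := by
      calc AdjoinRoot.mk f0 (spec ((t₀ : ℤ) : ZMod p) (U i)) ^ m
          = AdjoinRoot.mk f0 (spec ((t₀ : ℤ) : ZMod p) (U i)) ^ (m + 1) *
            AdjoinRoot.mk f0 (spec ((t₀ : ℤ) : ZMod p) (W i)) := by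
              rw [pow_succ, mul_assoc, e5, mul_one]
        _ = _ := by rw [hU i, one_mul]
    rw [e6]
    have e7 : AdjoinRoot.mk f0 (spec ((t₀ : ℤ) : ZMod p) κ) =
        AdjoinRoot.of f0 (((m + 1 : ℕ) : ZMod p)) := by
      rw [hκ]
      unfold spec
      rw [Polynomial.map_C, AdjoinRoot.mk_C]
      congr 1
      simp
    rw [e7]
    ring
  -- the combination
  have hzero : ∑ i, AdjoinRoot.of f0 (c i) *
      AdjoinRoot.mk f0 (spec ((t₀ : ℤ) : ZMod p) (dT (U i ^ (m + 1) %ₘ f))) = 0 := by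
    have h1 : ∑ i, C (c i) * spec ((t₀ : ℤ) : ZMod p) (dT (U i ^ (m + 1) %ₘ f)) = 0 := by
      ext1 j
      rw [finsetSum_coeff, coeff_zero]
      simp only [coeff_C_mul, spec_coeff, dT_coeff]
      by_cases hj : j < f.natDegree
      · exact hc ⟨j, hj⟩
      · refine Finset.sum_eq_zero fun i _ => ?_
        have : (U i ^ (m + 1) %ₘ f).coeff j = 0 := by
          apply coeff_eq_zero_of_degree_lt
          refine (degree_modByMonic_lt _ hf).trans_le ?_
          rw [degree_eq_natDegree hf.ne_zero]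
          exact_mod_cast not_lt.1 hj
        rw [this, derivative_zero, eval_zero, Int.cast_zero, mul_zero]
    have h2 := congrArg (AdjoinRoot.mk f0) h1
    rw [map_sum, map_zero] at h2
    simp only [map_mul, AdjoinRoot.mk_C] at h2
    exact h2
  have h3 := hgood (fun i => c i * (((m + 1 : ℕ) : ZMod p))) (by
    have h4 := congrArg (fun x => x * AdjoinRoot.mk f0 (derivative f0)) hzero
    simp only [zero_mul, Finset.sum_mul] at h4
    rw [← h4]
    refine Finset.sum_congr rfl fun i _ => ?_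
    rw [mul_assoc, key i, map_mul]
    ring)
  funext i
  have h4 := congrFun h3 i
  exact (mul_eq_zero.1 h4).resolve_right hMz

end Pool.Agent.R89.UP
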