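import Mathlib
import Pool.Agent.R89.UP.Red
import Pool.Agent.H33R4.Fin2

/-!
# Logarithms to first order
-/

set_option autoImplicit false

namespace Pool.Agent.R89.UP

open Polynomial Pool.Agent.H33R4

theorem binom_two {B : Type} [CommRing B] (a : B) (n : ℕ) :
    ∃ k : B, (1 + a) ^ n = 1 + n * a + (n.choose 2 : ℕ) * a ^ 2 + a ^ 3 * k := by
  induction n with
  | zero => exact ⟨0, by simp⟩
  | succ n ih =>
    obtain ⟨k, hk⟩ := ih
    refine ⟨k + (n.choose 2 : ℕ) + a * k, ?_⟩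
    rw [pow_succ, hk, Nat.choose_succ_succ' n 1, Nat.choose_one_right]
    push_cast
    ring

theorem pow_p {B : Type} [CommRing B] {p : ℕ} (hp : p.Prime) (hodd : p ≠ 2) (k : ℕ) (hk : 1 ≤ k)
    (y : B) : ∃ z : B, (1 + (p : B) ^ k * y) ^ p = 1 + (p : B) ^ (k + 1) * (y + p * z) := by
  obtain ⟨q, hq⟩ := binom_two ((p : B) ^ k * y) p
  have hdvd : p ∣ p.choose 2 := hp.dvd_choose_self (by norm_num) (by
    have := hp.two_le; omega)
  obtain ⟨m, hm⟩ := hdvd
  obtain ⟨l, rfl⟩ : ∃ l, k = l + 1 := ⟨k - 1, by omega⟩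
  refine ⟨(p : B) ^ l * m * y ^ 2 + (p : B) ^ (2 * l) * y ^ 3 * q, ?_⟩
  rw [hq, hm]
  push_cast
  ring

/-- the logarithm of `1 + p y` is `p y` modulo `p²` -/
theorem log_one {B : Type} [CommRing B] {p : ℕ} (hp : p.Prime) (hodd : p ≠ 2)
    (tf : ∀ b : B, (p : B) * b = 0 → b = 0) (y l : B) (hl : IsLog p (1 + (p : B) * y) l) :
    ∃ z : B, l = p * (y + p * z) := by
  obtain ⟨z1, h1⟩ := pow_p (B := B) hp hodd 1 le_rfl y
  obtain ⟨z2, h2⟩ := pow_p (B := B) hp hodd 2 (by norm_num) (y + p * z1)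
  obtain ⟨c, hc⟩ := hl 2
  rw [pow_two p, pow_mul] at hc
  rw [pow_one] at h1
  rw [h1, h2] at hc
  have h3 : (p : B) * ((p : B) * (p * (y + p * (z1 + z2)) - l - (p : B) ^ 2 * c)) = 0 := by
    linear_combination hc
  have h4 := tf _ (tf _ h3)
  refine ⟨z1 + z2 - c, ?_⟩
  linear_combination -h4

variable {p : ℕ} [hp : Fact p.Prime]

/-- reduction of power series -/
noncomputable def rho (p : ℕ) [Fact p.Prime] : PowerSeries ℤ_[p] →+* PowerSeries (ZMod p) :=
  PowerSeries.map PadicInt.toZMod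

theorem rho_p : rho p (p : PowerSeries ℤ_[p]) = 0 := by
  rw [map_natCast]
  have : ((p : ℕ) : PowerSeries (ZMod p)) = PowerSeries.C ((p : ℕ) : ZMod p) :=
    (map_natCast PowerSeries.C p).symm
  rw [this, ZMod.natCast_self, map_zero]

theorem eval_par (t₁ : ℤ) (h : ℤ[X]) (d : ℤ) (hd : (p : ℤ) ∣ h.eval t₁ - d) :
    ∃ e : PowerSeries ℤ_[p],
      h.eval₂ (Int.castRingHom (PowerSeries ℤ_[p])) (par p t₁) = (d : PowerSeries ℤ_[p]) + p * e ∧
      rho p e = PowerSeries.C ((((h.eval t₁ - d) / p : ℤ)) : ZMod p) +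
        PowerSeries.C ((((derivative h).eval t₁ : ℤ)) : ZMod p) * PowerSeries.X := by
  obtain ⟨q, hq⟩ := hd
  have hp0 : (p : ℤ) ≠ 0 := by exact_mod_cast hp.out.ne_zero
  have hqq : (h.eval t₁ - d) / p = q := by rw [hq, Int.mul_ediv_cancel_left _ hp0]
  set g := h.map (Int.castRingHom (PowerSeries ℤ_[p])) with hg
  obtain ⟨k, hk⟩ := g.binomExpansion ((t₁ : ℤ) : PowerSeries ℤ_[p])
    ((p : PowerSeries ℤ_[p]) * PowerSeries.X)
  have e1 : g.eval ((t₁ : ℤ) : PowerSeries ℤ_[p]) = ((h.eval t₁ : ℤ) : PowerSeries ℤ_[p]) := by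
    rw [hg, Polynomial.eval_intCast_map]; rfl
  have e2 : (derivative g).eval ((t₁ : ℤ) : PowerSeries ℤ_[p]) =
      (((derivative h).eval t₁ : ℤ) : PowerSeries ℤ_[p]) := by
    rw [hg, Polynomial.derivative_map, Polynomial.eval_intCast_map]; rfl
  have e3 : h.eval t₁ = d + p * q := by linarith
  refine ⟨(q : PowerSeries ℤ_[p]) + (((derivative h).eval t₁ : ℤ) : PowerSeries ℤ_[p]) *
    PowerSeries.X + (p : PowerSeries ℤ_[p]) * (k * PowerSeries.X ^ 2), ?_, ?_⟩
  · rw [← Polynomial.eval_map, ← hg]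
    unfold par
    rw [hk, e1, e2, e3]
    push_cast
    ring
  · rw [hqq]
    rw [map_add, map_add, map_mul, map_mul, rho_p, zero_mul, add_zero, map_intCast, map_intCast]
    have hX : rho p PowerSeries.X = PowerSeries.X := by
      unfold rho
      exact PowerSeries.map_X _
    rw [hX]
    simp

end Pool.Agent.R89.UP
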