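import Mathlib
import Pool.Agent.H33R4.EVZ

/-!
# The number of zeros of a power series over `ℤ_p` with a unit coefficient
-/

set_option autoImplicit false

namespace Pool.Agent.R89.UP

open Polynomial Pool.Agent.H33R4

variable {p : ℕ} [hp : Fact p.Prime]

/-- a power series over `ℤ_p` whose coefficient of index `k` is a unit has at most `k` zeros -/
theorem zeros (G : PowerSeries ℤ_[p]) (k : ℕ) (hk : ¬ (p : ℤ_[p]) ∣ PowerSeries.coeff k G) :
    ∃ Z : Finset ℤ_[p], Z.card ≤ k ∧
      ∀ (s : ℤ_[p]) (φ : PowerSeries ℤ_[p] →+* ℤ_[p]), IsEval p s φ → φ G = 0 → s ∈ Z := by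
  classical
  have hco : PowerSeries.coeff k (G.map (IsLocalRing.residue ℤ_[p])) ≠ 0 := by
    rw [PowerSeries.coeff_map]
    intro h0
    rw [IsLocalRing.residue_eq_zero_iff, PadicInt.maximalIdeal_eq_span_p,
      Ideal.mem_span_singleton] at h0
    exact hk h0
  have hres : G.map (IsLocalRing.residue ℤ_[p]) ≠ 0 := by
    intro h0
    rw [h0] at hco
    simp at hco
  obtain ⟨P, u, hW⟩ := PowerSeries.exists_isWeierstrassFactorization hres
  have hP : P.Monic := hW.isDistinguishedAt.monic
  have hd : P.natDegree ≤ k := by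
    rw [hW.natDegree_eq_toNat_order_map]
    have h1 := PowerSeries.order_le k hco
    exact ENat.toNat_le_of_le_coe h1
  refine ⟨P.roots.toFinset, ?_, ?_⟩
  · exact (Multiset.toFinset_card_le _).trans ((Polynomial.card_roots' P).trans hd)
  · intro s φ hφ h0
    rw [hW.eq_mul, map_mul, EVZaux.eval_poly hφ] at h0
    have h3 : IsUnit (φ u) := hW.isUnit.map φ
    have h4 : P.eval s = 0 := by
      rcases mul_eq_zero.1 h0 with h | h
      · exact h
      · rw [h] at h3
        exact absurd h3 not_isUnit_zero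
    rw [Multiset.mem_toFinset, Polynomial.mem_roots hP.ne_zero]
    exact h4

end Pool.Agent.R89.UP
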