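import Mathlib
import Pool.Agent.R89.UP.Ser
import Pool.Agent.R89.UP.Weier
import Pool.Agent.H33R4.Final

/-!
# The power series which controls Leopoldt's conjecture in a residue class modulo `p²`
-/

set_option autoImplicit false

namespace Pool.Agent.R89.UP

open Polynomial NumberField Pool.Agent.H33R4
open Pool.Agent.H637R2.Leo (Leopoldt)

variable {p : ℕ} [hp : Fact p.Prime]

/-- the first order coordinates -/
noncomputable def alpha (p : ℕ) (f : ℤ[X][X]) {r : ℕ} (U : Fin r → ℤ[X][X]) (M : ℕ) (t : ℤ)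
    (i : Fin r) (j : Fin f.natDegree) : ZMod p :=
  ((((((U i ^ M %ₘ f).coeff j).eval t - (if (j : ℕ) = 0 then 1 else 0)) / p : ℤ)) : ZMod p)

/-- their derivatives -/
noncomputable def beta (p : ℕ) (f : ℤ[X][X]) {r : ℕ} (U : Fin r → ℤ[X][X]) (M : ℕ) (t : ℤ)
    (i : Fin r) (j : Fin f.natDegree) : ZMod p :=
  (((derivative ((U i ^ M %ₘ f).coeff j)).eval t : ℤ) : ZMod p)

theorem not_dvd_of_toZMod {x : ℤ_[p]} (h : PadicInt.toZMod x ≠ 0) : ¬ (p : ℤ_[p]) ∣ x := by
  rintro ⟨y, rfl⟩
  apply h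
  rw [map_mul, map_natCast, ZMod.natCast_self, zero_mul]

theorem local_series (hodd : p ≠ 2) (f : ℤ[X][X]) (hf : f.Monic) (hn : 0 < f.natDegree)
    (t₀ t₁ : ℤ) (ht : (p : ℤ) ∣ t₁ - t₀) {r : ℕ} (U W : Fin r → ℤ[X][X])
    (huw : ∀ i, f ∣ U i * W i - 1) {M : ℕ} (hM : 0 < M)
    (hU : ∀ i, (AdjoinRoot.mk (spec ((t₀ : ℤ) : ZMod p) f) (spec ((t₀ : ℤ) : ZMod p) (U i))) ^ M = 1)
    (D : Fin f.natDegree → Fin r → ZMod p)
    (hD : ∀ i k, ∑ j, beta p f U M t₀ i j * D j k = if i = k then 1 else 0) :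
    ∃ G : PowerSeries ℤ_[p], ¬ (p : ℤ_[p]) ∣ PowerSeries.coeff r G ∧
      ((Matrix.of fun i k => ∑ j, alpha p f U M t₁ i j * D j k).det ≠ 0 →
        ¬ (p : ℤ_[p]) ∣ PowerSeries.coeff 0 G) ∧
      ∀ t : ℤ, (p : ℤ) ^ 2 ∣ t - t₁ → Bad p f.natDegree r f t →
        ∃ φ, IsEval p ((((t - t₁) / p : ℤ)) : ℤ_[p]) φ ∧ φ G = 0 := by
  classical
  set T₁ := par p t₁ with hT₁
  set F := spec T₁ f with hFdef
  have hF : F.Monic := spec_monic _ hf
  have hFn : F.natDegree = f.natDegree := hf.natDegree_map _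
  have hHd : ∀ i m, f.natDegree ≤ m → (U i ^ M %ₘ f).coeff m = 0 := by
    intro i m hm
    apply coeff_eq_zero_of_degree_lt
    refine (degree_modByMonic_lt _ hf).trans_le ?_
    rw [degree_eq_natDegree hf.ne_zero]
    exact_mod_cast hm
  choose e he1 he2 using fun (i : Fin r) (j : Fin f.natDegree) => eval_par (p := p) t₁
    ((U i ^ M %ₘ f).coeff j) (if (j : ℕ) = 0 then 1 else 0)
    (H_dvd f hf hn t₀ (hU i) ht j)
  let ee : Fin r → ℕ → PowerSeries ℤ_[p] := fun i m => if h : m < f.natDegree then e i ⟨m, h⟩ else 0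
  let E : Fin r → (PowerSeries ℤ_[p])[X] := fun i => ∑ m ∈ Finset.range f.natDegree, monomial m (ee i m)
  have hE : ∀ i m, (E i).coeff m = ee i m := by
    intro i m
    simp only [E, finsetSum_coeff, coeff_monomial]
    rw [Finset.sum_ite_eq' (Finset.range f.natDegree) m]
    split_ifs with h
    · rfl
    · rw [Finset.mem_range] at h
      simp only [ee, dif_neg h]
  have hP : ∀ i, spec T₁ (U i ^ M %ₘ f) = 1 + C (p : PowerSeries ℤ_[p]) * E i := by
    intro i
    ext1 m
    rw [coeff_add, coeff_C_mul, hE, coeff_one]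
    have h1 : (spec T₁ (U i ^ M %ₘ f)).coeff m =
        ((U i ^ M %ₘ f).coeff m).eval₂ (Int.castRingHom (PowerSeries ℤ_[p])) T₁ := by
      unfold spec
      rw [coeff_map]
      rfl
    rw [h1]
    by_cases hm : m < f.natDegree
    · have h2 := he1 i ⟨m, hm⟩
      simp only at h2
      rw [h2]
      simp only [ee, dif_pos hm]
      congr 1
      split_ifs with h3 <;> simp
    · rw [hHd i m (not_lt.1 hm), eval₂_zero]
      simp only [ee, dif_neg hm]
      have : m ≠ 0 := by omega
      rw [if_neg this, mul_zero, add_zero]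
  have hx : ∀ i, (AdjoinRoot.mk F (spec T₁ (U i))) ^ M =
      1 + (p : AdjoinRoot F) * AdjoinRoot.mk F (E i) := by
    intro i
    have e1 : U i ^ M = (U i ^ M %ₘ f) + f * (U i ^ M /ₘ f) :=
      (Polynomial.modByMonic_add_div _ f).symm
    rw [← map_pow, ← spec_pow, e1, spec_add, spec_mul, map_add, map_mul]
    rw [← hFdef, AdjoinRoot.mk_self, zero_mul, add_zero, hP i, map_add, map_mul, map_one,
      AdjoinRoot.mk_C, map_natCast]
  have hgood : PGood p (PowerSeries ℤ_[p]) := good1_proof.2 p _ (good1_proof.1 p)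
  have hgoodB : PGood p (AdjoinRoot F) := good2_proof p _ _ hF hgood
  choose L hL using fun i => logEx_proof p hp.out _ hgoodB
    (1 + (p : AdjoinRoot F) * AdjoinRoot.mk F (E i)) (by
      rw [add_sub_cancel_left]; exact dvd_mul_right _ _)
  choose z hz using fun i => log_one hp.out hodd hgoodB.tf _ _ (hL i)
  let Z : Fin r → (PowerSeries ℤ_[p])[X] := fun i => AdjoinRoot.modByMonicHom hF (z i)
  have hZ : ∀ i, AdjoinRoot.mk F (Z i) = z i := fun i => AdjoinRoot.mk_leftInverse hF (z i)
  have hZd : ∀ i j, f.natDegree ≤ j → (Z i).coeff j = 0 := by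
    intro i j hj
    apply coeff_eq_zero_of_degree_lt
    obtain ⟨Q, hQ⟩ := AdjoinRoot.mk_surjective (z i)
    simp only [Z]
    rw [← hQ, AdjoinRoot.modByMonicHom_mk]
    refine (degree_modByMonic_lt Q hF).trans_le ?_
    rw [degree_eq_natDegree hF.ne_zero, hFn]
    exact_mod_cast hj
  let Lam : Fin r → (PowerSeries ℤ_[p])[X] := fun i => E i + C (p : PowerSeries ℤ_[p]) * Z i
  have hLam : ∀ i, L i = (p : AdjoinRoot F) * AdjoinRoot.mk F (Lam i) := by
    intro i
    rw [hz i]
    simp only [Lam, map_add, map_mul, AdjoinRoot.mk_C, map_natCast, hZ]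
  have hLamd : ∀ i j, F.natDegree ≤ j → (Lam i).coeff j = 0 := by
    intro i j hj
    rw [hFn] at hj
    simp only [Lam, coeff_add, coeff_C_mul, hE, hZd i j hj, ee, dif_neg (not_lt.2 hj), mul_zero,
      add_zero]
  let Dl : Fin f.natDegree → Fin r → PowerSeries ℤ_[p] := fun j k => (((D j k).val : ℕ) : PowerSeries ℤ_[p])
  set G : PowerSeries ℤ_[p] := (Matrix.of fun i k => ∑ j : Fin f.natDegree, (Lam i).coeff j * Dl j k).det
    with hG
  -- the reduction of the determinant
  set Q : (ZMod p)[X] := ((X : (ZMod p)[X]) • (1 : Matrix (Fin r) (Fin r) (ZMod p)).map C +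
    (Matrix.of fun i k => ∑ j, alpha p f U M t₁ i j * D j k).map C).det with hQ
  have hbeta : ∀ i j, beta p f U M t₁ i j = beta p f U M t₀ i j := by
    intro i j
    unfold beta
    rw [← sub_eq_zero, ← Int.cast_sub, ZMod.intCast_zmod_eq_zero_iff_dvd]
    exact ht.trans (Polynomial.sub_dvd_eval_sub _ _ _)
  have hrho : rho p G = (Q : PowerSeries (ZMod p)) := by
    rw [hG, RingHom.map_det, hQ]
    have h1 : ((((X : (ZMod p)[X]) • (1 : Matrix (Fin r) (Fin r) (ZMod p)).map C +
      (Matrix.of fun i k => ∑ j, alpha p f U M t₁ i j * D j k).map C).det : (ZMod p)[X]) :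
        PowerSeries (ZMod p)) = Polynomial.coeToPowerSeries.ringHom
        (((X : (ZMod p)[X]) • (1 : Matrix (Fin r) (Fin r) (ZMod p)).map C +
      (Matrix.of fun i k => ∑ j, alpha p f U M t₁ i j * D j k).map C).det) := rfl
    rw [h1, RingHom.map_det]
    congr 1
    ext1 i k
    simp only [RingHom.mapMatrix_apply, Matrix.map_apply, Matrix.of_apply, Matrix.add_apply,
      Matrix.smul_apply, smul_eq_mul, map_sum, map_mul, map_add,
      Polynomial.coeToPowerSeries.ringHom_apply, Polynomial.coe_X, Polynomial.coe_C]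
    have h2 : ∀ j : Fin f.natDegree, rho p ((Lam i).coeff j) * rho p (Dl j k) =
        PowerSeries.C (alpha p f U M t₁ i j * D j k) +
          PowerSeries.X * PowerSeries.C (beta p f U M t₀ i j * D j k) := by
      intro j
      have h3 : rho p ((Lam i).coeff j) = PowerSeries.C (alpha p f U M t₁ i j) +
          PowerSeries.C (beta p f U M t₀ i j) * PowerSeries.X := by
        simp only [Lam, coeff_add, coeff_C_mul, hE, ee, dif_pos j.2]
        rw [map_add, map_mul, rho_p, zero_mul, add_zero]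
        have h4 := he2 i j
        rw [← hbeta i j]
        exact h4
      have h4 : rho p (Dl j k) = PowerSeries.C (D j k) := by
        simp only [Dl]
        rw [map_natCast]
        have : (((D j k).val : ℕ) : PowerSeries (ZMod p)) =
            PowerSeries.C (((D j k).val : ℕ) : ZMod p) := (map_natCast PowerSeries.C _).symm
        rw [this, ZMod.natCast_zmod_val]
      rw [h3, h4, map_mul, map_mul]
      ring
    rw [Finset.sum_congr rfl fun j _ => h2 j, Finset.sum_add_distrib, ← Finset.mul_sum,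
      ← map_sum, ← map_sum, hD i k]
    rw [Matrix.one_apply]
    rw [add_comm]
    congr 1
    rw [map_sum]
    simp only [map_mul]
  have hcoef : ∀ m, PadicInt.toZMod (PowerSeries.coeff m G) = Q.coeff m := by
    intro m
    have h1 := congrArg (PowerSeries.coeff m) hrho
    unfold rho at h1
    rw [PowerSeries.coeff_map, Polynomial.coeff_coe] at h1
    exact h1
  refine ⟨G, ?_, ?_, ?_⟩
  · apply not_dvd_of_toZMod
    rw [hcoef, hQ]
    have h1 := Polynomial.coeff_det_X_add_C_card (1 : Matrix (Fin r) (Fin r) (ZMod p))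
      (Matrix.of fun i k => ∑ j, alpha p f U M t₁ i j * D j k)
    rw [Fintype.card_fin] at h1
    rw [h1, Matrix.det_one]
    exact one_ne_zero
  · intro hdet
    apply not_dvd_of_toZMod
    rw [hcoef, hQ, Polynomial.coeff_det_X_add_C_zero]
    exact hdet
  · rintro t ⟨m, hm⟩ ⟨K, _, _, θ, hθ, hKn, hgen, hKr, hL0⟩
    have hp0 : (p : ℤ) ≠ 0 := by exact_mod_cast hp.out.ne_zero
    have hs : (t - t₁) / p = p * m := by
      rw [hm, pow_two, mul_assoc, Int.mul_ediv_cancel_left _ hp0]
    have hdvd : (p : ℤ_[p]) ∣ ((((t - t₁) / p : ℤ)) : ℤ_[p]) := by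
      rw [hs]
      push_cast
      exact dvd_mul_right _ _
    obtain ⟨φ, hφ⟩ := (evZ_proof p).1 _ hdvd
    refine ⟨φ, hφ, ?_⟩
    have hφT : φ T₁ = ((t : ℤ) : ℤ_[p]) := by
      rw [hT₁, par_map, hφ.1, hs]
      have : t = t₁ + p * (p * m) := by
        have := hm
        rw [pow_two] at this
        linarith
      rw [this]
      push_cast
      ring
    have hmap : ∀ P : ℤ[X][X], (spec T₁ P).map φ = (spec t P).map (Int.castRingHom ℤ_[p]) := by
      intro P
      rw [spec_map, spec_map, hφT]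
      rfl
    obtain ⟨wv, hw0, hw⟩ := partB' (partB_of logB_proof good1_proof good2_proof) p (spec t f)
      (spec_monic _ hf) r (fun i => spec t (U i))
      (fun i => spec t (W i)) (fun i => by
        have := Polynomial.map_dvd (Polynomial.eval₂RingHom (Int.castRingHom ℤ) t) (huw i)
        simpa [spec] using this) K θ hθ
      (by rw [hKn]; exact (hf.natDegree_map _).symm) hgen hKr hL0 M hM
      (F.map φ) (hmap f)
      (fun i => AdjoinRoot.map φ _ _ dvd_rfl (L i)) (fun i => by
        have h3 := (logB_proof p hp.out _).2.2.2.1 _ (AdjoinRoot.map φ F (F.map φ) dvd_rfl)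
          _ _ (hL i)
        rw [← hx i, map_pow, adj_map_mk, hmap (U i)] at h3
        exact h3)
    have hFφ : (F.map φ).Monic := hF.map φ
    have hG2 : PGood p (AdjoinRoot (F.map φ)) :=
      good2_proof p ℤ_[p] _ hFφ (good1_proof.1 p)
    have h5 : ∑ i, AdjoinRoot.of (F.map φ) (wv i) *
        AdjoinRoot.mk (F.map φ) ((Lam i).map φ) = 0 := by
      apply hG2.tf
      rw [Finset.mul_sum, ← hw]
      refine Finset.sum_congr rfl fun i _ => ?_
      rw [hLam i, map_mul, map_natCast, adj_map_mk]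
      ring
    have h6 := coord_rel hF Lam hLamd φ wv h5
    have h7 := det_zero_of_rel (fun i (j : Fin f.natDegree) => φ ((Lam i).coeff j))
      (fun j k => φ (Dl j k)) wv hw0 (fun j => h6 j)
    rw [hG, RingHom.map_det]
    rw [← h7]
    congr 1
    ext1 i k
    simp only [RingHom.mapMatrix_apply, Matrix.map_apply, Matrix.of_apply, map_sum, map_mul]

end Pool.Agent.R89.UP
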