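import Mathlib
import Pool.Agent.R89.UP.Cls

/-!
# Counting the exceptional integers for one prime, uniformly in the prime
-/

set_option autoImplicit false

namespace Pool.Agent.R89.UP

open Polynomial NumberField Pool.Agent.H33R4
open Pool.Agent.H637R2.Leo (Leopoldt)

variable {p : ℕ} [hp : Fact p.Prime]

/-- the exceptional integers in a class modulo `p²` -/
theorem class_sq (G : PowerSeries ℤ_[p]) (k : ℕ) (hk : ¬ (p : ℤ_[p]) ∣ PowerSeries.coeff k G)
    (t₁ : ℤ) (B : ℤ → Prop)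
    (h : ∀ t : ℤ, (p : ℤ) ^ 2 ∣ t - t₁ → B t →
      ∃ φ, IsEval p ((((t - t₁) / p : ℤ)) : ℤ_[p]) φ ∧ φ G = 0) :
    ∃ S : Finset ℤ, S.card ≤ k ∧ ∀ t : ℤ, (p : ℤ) ^ 2 ∣ t - t₁ → B t → t ∈ S := by
  classical
  obtain ⟨Z, hZ1, hZ2⟩ := zeros G k hk
  have hinj : Set.InjOn (fun t : ℤ => ((((t - t₁) / p : ℤ)) : ℤ_[p]))
      {t : ℤ | (p : ℤ) ^ 2 ∣ t - t₁ ∧ B t} := by
    rintro t ⟨⟨m, hm⟩, _⟩ t' ⟨⟨m', hm'⟩, _⟩ heq
    have hp0 : (p : ℤ) ≠ 0 := by exact_mod_cast hp.out.ne_zero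
    simp only [Int.cast_inj] at heq
    rw [hm, hm', pow_two, mul_assoc, mul_assoc, Int.mul_ediv_cancel_left _ hp0,
      Int.mul_ediv_cancel_left _ hp0] at heq
    have : t - t₁ = t' - t₁ := by
      rw [hm, hm', pow_two, mul_assoc, mul_assoc, heq]
    linarith
  have hmaps : Set.MapsTo (fun t : ℤ => ((((t - t₁) / p : ℤ)) : ℤ_[p]))
      {t : ℤ | (p : ℤ) ^ 2 ∣ t - t₁ ∧ B t} (Z : Set ℤ_[p]) := by
    rintro t ⟨h1, h2⟩
    obtain ⟨φ, hφ, h0⟩ := h t h1 h2
    exact hZ2 _ φ hφ h0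
  have hfin : {t : ℤ | (p : ℤ) ^ 2 ∣ t - t₁ ∧ B t}.Finite :=
    Set.Finite.of_injOn hmaps hinj Z.finite_toSet
  refine ⟨hfin.toFinset, ?_, fun t h1 h2 => by
    rw [Set.Finite.mem_toFinset]; exact ⟨h1, h2⟩⟩
  refine (Finset.card_le_card_of_injOn (fun t : ℤ => ((((t - t₁) / p : ℤ)) : ℤ_[p]))
    ?_ ?_).trans hZ1
  · intro t ht
    rw [Finset.mem_coe, Set.Finite.mem_toFinset] at ht
    exact hmaps ht
  · intro t ht t' ht' heq
    rw [Finset.mem_coe, Set.Finite.mem_toFinset] at ht ht'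
    exact hinj ht ht' heq

theorem alpha_shift (f : ℤ[X][X]) (hf : f.Monic) (hn : 0 < f.natDegree) (t₀ : ℤ) {r : ℕ}
    (U : Fin r → ℤ[X][X]) {M : ℕ}
    (hU : ∀ i, (AdjoinRoot.mk (spec ((t₀ : ℤ) : ZMod p) f) (spec ((t₀ : ℤ) : ZMod p) (U i))) ^ M = 1)
    (s : ℤ) (i : Fin r) (j : Fin f.natDegree) :
    alpha p f U M (t₀ + p * s) i j = alpha p f U M t₀ i j + s * beta p f U M t₀ i j := by
  have hp0 : (p : ℤ) ≠ 0 := by exact_mod_cast hp.out.ne_zero
  obtain ⟨q, hq⟩ := H_dvd f hf hn t₀ (hU i) (t := t₀) (by simp) (j : ℕ)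
  obtain ⟨k, hk⟩ := ((U i ^ M %ₘ f).coeff j).binomExpansion t₀ (p * s)
  unfold alpha beta
  have e1 : ((U i ^ M %ₘ f).coeff (j : ℕ)).eval (t₀ + p * s) - (if (j : ℕ) = 0 then 1 else 0) =
      p * (q + (derivative ((U i ^ M %ₘ f).coeff (j : ℕ))).eval t₀ * s + p * (k * s ^ 2)) := by
    rw [hk]
    linear_combination hq
  rw [e1, hq, Int.mul_ediv_cancel_left _ hp0, Int.mul_ediv_cancel_left _ hp0]
  push_cast
  rw [ZMod.natCast_self]
  ring

/-- the exceptional integers in a good class modulo `p` -/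
theorem class_count (hodd : p ≠ 2) (f : ℤ[X][X]) (hf : f.Monic) (hn : 0 < f.natDegree)
    (t₀ : ℤ) {r : ℕ} (U W : Fin r → ℤ[X][X]) (huw : ∀ i, f ∣ U i * W i - 1)
    (hsep : (spec ((t₀ : ℤ) : ZMod p) f).Separable)
    (hgood : ∀ c : Fin r → ZMod p, ∑ i, AdjoinRoot.of (spec ((t₀ : ℤ) : ZMod p) f) (c i) *
      AdjoinRoot.mk (spec ((t₀ : ℤ) : ZMod p) f) (spec ((t₀ : ℤ) : ZMod p) (jac f (U i) * W i)) = 0 →
      c = 0) :
    ∃ S : Finset ℤ, S.card ≤ r * r ∧
      ∀ t : ℤ, (p : ℤ) ∣ t - t₀ → Bad p f.natDegree r f t → t ∈ S := by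
  classical
  have hf0 : (spec ((t₀ : ℤ) : ZMod p) f).Monic := spec_monic _ hf
  obtain ⟨M, hM, hMp, hMu⟩ := exists_exp (spec ((t₀ : ℤ) : ZMod p) f) hf0
    (by rw [show (spec ((t₀ : ℤ) : ZMod p) f).natDegree = f.natDegree from hf.natDegree_map _]
        exact hn) hsep
  have hU : ∀ i, (AdjoinRoot.mk (spec ((t₀ : ℤ) : ZMod p) f)
      (spec ((t₀ : ℤ) : ZMod p) (U i))) ^ M = 1 := by
    intro i
    apply hMu _ (AdjoinRoot.mk (spec ((t₀ : ℤ) : ZMod p) f) (spec ((t₀ : ℤ) : ZMod p) (W i)))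
    obtain ⟨g, hg⟩ := huw i
    have h1 : U i * W i = f * g + 1 := by rw [← hg]; ring
    have h2 := congrArg (fun P => AdjoinRoot.mk (spec ((t₀ : ℤ) : ZMod p) f)
      (spec ((t₀ : ℤ) : ZMod p) P)) h1
    simp only [spec_mul, spec_add, spec_one, map_mul, map_add, map_one] at h2
    rw [AdjoinRoot.mk_self, zero_mul, zero_add] at h2
    exact h2
  obtain ⟨D, hD⟩ := exists_right_inverse (beta p f U M t₀)
    (fun c hc => rows_indep f hf hn t₀ U W huw hM hMp hU hgood c hc)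
  choose G hG1 hG2 hG3 using fun s : ℕ => local_series hodd f hf hn t₀ (t₀ + p * (s : ℤ))
    (by rw [add_sub_cancel_left]; exact dvd_mul_right _ _) U W huw hM hU D hD
  set A : ℕ → Matrix (Fin r) (Fin r) (ZMod p) :=
    fun s => Matrix.of fun i k => ∑ j, alpha p f U M (t₀ + p * (s : ℤ)) i j * D j k with hA
  set A0 : Matrix (Fin r) (Fin r) (ZMod p) :=
    Matrix.of fun i k => ∑ j, alpha p f U M t₀ i j * D j k with hA0
  have hAs : ∀ s : ℕ, A s = ((s : ℕ) : ZMod p) • (1 : Matrix (Fin r) (Fin r) (ZMod p)) + A0 := by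
    intro s
    ext1 i k
    simp only [hA, hA0, Matrix.of_apply, Matrix.add_apply, Matrix.smul_apply, smul_eq_mul]
    have h1 : ∀ j : Fin f.natDegree, alpha p f U M (t₀ + p * (s : ℤ)) i j * D j k =
        (s : ZMod p) * (beta p f U M t₀ i j * D j k) + alpha p f U M t₀ i j * D j k := by
      intro j
      rw [alpha_shift f hf hn t₀ U hU (s : ℤ) i j]
      push_cast
      ring
    rw [Finset.sum_congr rfl fun j _ => h1 j, Finset.sum_add_distrib, ← Finset.mul_sum, hD i k,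
      Matrix.one_apply]
  set Q : (ZMod p)[X] := ((X : (ZMod p)[X]) • (1 : Matrix (Fin r) (Fin r) (ZMod p)).map C +
    A0.map C).det with hQ
  have hQe : ∀ x : ZMod p, Q.eval x = (x • (1 : Matrix (Fin r) (Fin r) (ZMod p)) + A0).det := by
    intro x
    have h1 : Q.eval x = Polynomial.evalRingHom x Q := rfl
    rw [h1, hQ, RingHom.map_det]
    congr 1
    ext1 i k
    simp only [RingHom.mapMatrix_apply, Matrix.map_apply, Matrix.add_apply, Matrix.smul_apply,
      smul_eq_mul, map_add, coe_evalRingHom, eval_mul, eval_X, eval_C]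
  have hQr : Q.coeff r = 1 := by
    have h1 := Polynomial.coeff_det_X_add_C_card (1 : Matrix (Fin r) (Fin r) (ZMod p)) A0
    rw [Fintype.card_fin] at h1
    rw [hQ, h1, Matrix.det_one]
  have hQ0 : Q ≠ 0 := by
    intro h0
    rw [h0, coeff_zero] at hQr
    exact zero_ne_one hQr
  have hQd : Q.natDegree ≤ r := by
    have h1 := Polynomial.natDegree_det_X_add_C_le (1 : Matrix (Fin r) (Fin r) (ZMod p)) A0
    rw [Fintype.card_fin] at h1
    exact h1
  -- the exceptional classes modulo `p²`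
  set R : Finset ℕ := (Finset.range p).filter (fun s => (A s).det = 0) with hR
  have hRc : R.card ≤ r := by
    refine (Finset.card_le_card_of_injOn (fun s : ℕ => (s : ZMod p)) (t := Q.roots.toFinset)
      ?_ ?_).trans ((Multiset.toFinset_card_le _).trans ((Polynomial.card_roots' Q).trans hQd))
    · intro s hs
      rw [Finset.mem_coe, hR, Finset.mem_filter] at hs
      rw [Finset.mem_coe, Multiset.mem_toFinset, Polynomial.mem_roots hQ0]
      show Q.eval (s : ZMod p) = 0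
      rw [hQe, ← hAs s]
      exact hs.2
    · intro s hs s' hs' heq
      rw [Finset.mem_coe, hR, Finset.mem_filter, Finset.mem_range] at hs hs'
      have h1 : ((s : ℕ) : ZMod p) = (s' : ZMod p) := heq
      rw [ZMod.natCast_eq_natCast_iff'] at h1
      rw [Nat.mod_eq_of_lt hs.1, Nat.mod_eq_of_lt hs'.1] at h1
      exact h1
  choose S hS1 hS2 using fun s : ℕ => class_sq (G s) r (hG1 s) (t₀ + p * (s : ℤ))
    (Bad p f.natDegree r f) (hG3 s)
  refine ⟨R.biUnion S, ?_, ?_⟩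
  · refine (Finset.card_biUnion_le_card_mul R S r fun s _ => hS1 s).trans ?_
    exact Nat.mul_le_mul_right _ hRc
  · intro t ht hB
    obtain ⟨m, hm⟩ := ht
    have hppos : (0 : ℤ) < p := by exact_mod_cast hp.out.pos
    set s : ℕ := (m % (p : ℤ)).toNat with hs
    have hs1 : (s : ℤ) = m % p := by
      rw [hs, Int.toNat_of_nonneg (Int.emod_nonneg m hppos.ne')]
    have hs2 : s < p := by
      have := Int.emod_lt_of_pos m hppos
      rw [← hs1] at this
      exact_mod_cast this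
    have hdvd : (p : ℤ) ^ 2 ∣ t - (t₀ + p * (s : ℤ)) := by
      have h1 : t - (t₀ + p * (s : ℤ)) = p * (m - m % p) := by
        rw [hs1]; linarith
      rw [h1, pow_two]
      exact mul_dvd_mul_left _ (Int.dvd_self_sub_emod)
    have hmem := hS2 s t hdvd hB
    rw [Finset.mem_biUnion]
    refine ⟨s, ?_, hmem⟩
    rw [hR, Finset.mem_filter, Finset.mem_range]
    refine ⟨hs2, ?_⟩
    by_contra hdet
    obtain ⟨S0, h1, h2⟩ := class_sq (G s) 0 (hG2 s hdet) (t₀ + p * (s : ℤ))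
      (Bad p f.natDegree r f) (hG3 s)
    have h3 := h2 t hdvd hB
    rw [Nat.le_zero, Finset.card_eq_zero] at h1
    rw [h1] at h3
    exact absurd h3 (Finset.notMem_empty _)

end Pool.Agent.R89.UP
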