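import Mathlib
import Pool.Agent.R89.UP.Lin
import Pool.Agent.H33R4.Inf

/-!
# The logarithmic derivatives of the units of the explicit families
-/

set_option autoImplicit false

namespace Pool.Agent.R89.UP

open Polynomial Pool.Agent.H33R4

section fam

variable {r₁ r₂ : ℕ} (a : Fin r₁ → ℤ) (b c : Fin r₂ → ℤ)

/-- the degree of a factor -/
def dg {r₁ r₂ : ℕ} : Fin r₁ ⊕ Fin r₂ → ℕ
  | Sum.inl _ => 1
  | Sum.inr _ => 2

theorem dT_sub (P Q : ℤ[X][X]) : dT (P - Q) = dT P - dT Q := by
  have := dT_add (P - Q) Q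
  rw [sub_add_cancel] at this
  rw [this]; ring

theorem dT_one : dT 1 = 0 := by
  have := dT_C 1
  rw [derivative_one, map_one, map_zero] at this
  exact this

theorem fac_euler (i : Fin r₁ ⊕ Fin r₂) :
    C X * dT (fac a b c i) + X * derivative (fac a b c i) = (dg i : ℤ[X][X]) * fac a b c i := by
  rcases i with i | k
  · simp only [fac, dg]
    rw [dT_sub, dT_X, dT_C]
    simp only [derivative_mul, derivative_C, derivative_X, derivative_sub, map_mul, map_add,
      map_zero, map_one]
    push_cast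
    ring
  · simp only [fac, dg]
    have hd : derivative ((X - C (C (b k) * X)) ^ 2 + C (C (c k) * X ^ 2) : ℤ[X][X]) =
        2 * (X - C (C (b k) * X)) := by
      rw [derivative_add, derivative_C, add_zero, pow_two, derivative_mul, derivative_sub,
        derivative_X, derivative_C]
      ring
    have hd2 : derivative (C (b k) * X : ℤ[X]) = C (b k) := by
      rw [derivative_mul, derivative_C, derivative_X]; ring
    have hd3 : derivative (C (c k) * X ^ 2 : ℤ[X]) = C (c k) * (2 * X) := by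
      rw [derivative_mul, derivative_C, pow_two, derivative_mul, derivative_X]; ring
    rw [hd, dT_add, pow_two, dT_mul, dT_sub, dT_X, dT_C, dT_C, hd2, hd3]
    simp only [map_mul, map_pow, map_ofNat]
    push_cast
    ring

theorem prod_euler (s : Finset (Fin r₁ ⊕ Fin r₂)) :
    C X * dT (∏ i ∈ s, fac a b c i) + X * derivative (∏ i ∈ s, fac a b c i) =
      ((∑ i ∈ s, dg i : ℕ) : ℤ[X][X]) * ∏ i ∈ s, fac a b c i := by
  classical
  induction s using Finset.induction_on with
  | empty => simp [dT_one]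
  | insert i s hi ih =>
    rw [Finset.prod_insert hi, Finset.sum_insert hi, dT_mul, derivative_mul]
    have h1 := fac_euler a b c i
    push_cast at ih ⊢
    linear_combination (fac a b c i) * ih + (∏ i ∈ s, fac a b c i) * h1

theorem quad (hc : ∀ k, 0 < c k) (k : Fin r₂) (α : ℂ) :
    (α - (b k : ℂ)) ^ 2 + (c k : ℂ) =
      (α - aa a b c (Sum.inr (k, true))) * (α - aa a b c (Sum.inr (k, false))) := by
  have h1 : aa a b c (Sum.inr (k, true)) = (b k : ℂ) + Complex.I * (Real.sqrt (c k) : ℝ) := by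
    apply Complex.ext <;> simp [aa]
  have h2 : aa a b c (Sum.inr (k, false)) = (b k : ℂ) - Complex.I * (Real.sqrt (c k) : ℝ) := by
    apply Complex.ext <;> simp [aa]
  have h3 : (Complex.I * (Real.sqrt (c k) : ℝ)) ^ 2 = - (c k : ℂ) := by
    rw [mul_pow, Complex.I_sq, ← Complex.ofReal_pow, Real.sq_sqrt (by exact_mod_cast (hc k).le)]
    simp
  rw [h1, h2]
  linear_combination h3

/-- one root of each factor -/
noncomputable def jm {r₁ r₂ : ℕ} : Fin r₁ ⊕ Fin r₂ → JJ r₁ r₂
  | Sum.inl i => Sum.inl i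
  | Sum.inr k => Sum.inr (k, true)

/-- evaluation at `Y = α T` -/
noncomputable def Ph (α : ℂ) : ℤ[X][X] →+* ℂ[X] :=
  Polynomial.eval₂RingHom (Polynomial.mapRingHom (Int.castRingHom ℂ)) (C α * X)

theorem Ph_C (α : ℂ) (g : ℤ[X]) : Ph α (C g) = g.map (Int.castRingHom ℂ) := by
  simp [Ph]

theorem Ph_X (α : ℂ) : Ph α X = C α * X := by
  simp [Ph]

theorem Ph_lin (α : ℂ) (z : ℤ) : Ph α (X - C (C z * X)) = C (α - (z : ℂ)) * X := by
  rw [map_sub, Ph_C, Ph_X, Polynomial.map_mul, Polynomial.map_C, Polynomial.map_X]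
  simp only [eq_intCast, map_sub]
  ring

theorem Ph_fac_inl (α : ℂ) (i : Fin r₁) :
    Ph α (fac a b c (Sum.inl i)) = C (α - (a i : ℂ)) * X := by
  simp only [fac]
  exact Ph_lin α (a i)

theorem Ph_fac_inr (α : ℂ) (k : Fin r₂) :
    Ph α (fac a b c (Sum.inr k)) = C ((α - (b k : ℂ)) ^ 2 + (c k : ℂ)) * X ^ 2 := by
  simp only [fac, map_sub, map_add, map_pow, Ph_C, Ph_X, Polynomial.map_mul, Polynomial.map_C,
    Polynomial.map_X, Polynomial.map_pow]
  simp only [eq_intCast]
  ring

theorem Ph_self (hc : ∀ k, 0 < c k) (m : Fin r₁ ⊕ Fin r₂) :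
    Ph (aa a b c (jm m)) (fac a b c m) = 0 := by
  rcases m with i | k
  · rw [Ph_fac_inl]
    simp [jm, aa]
  · rw [Ph_fac_inr, quad a b c hc k]
    simp [jm]

theorem Ph_ne (ha : Function.Injective a) (hbc : Function.Injective (fun k => (b k, c k)))
    (hc : ∀ k, 0 < c k) (m l : Fin r₁ ⊕ Fin r₂) (hl : l ≠ m) :
    Ph (aa a b c (jm m)) (fac a b c l) ≠ 0 := by
  have hinj := aa_inj a b c ha hbc hc
  have hne : ∀ j : JJ r₁ r₂, gg r₁ r₂ j = l → aa a b c (jm m) - aa a b c j ≠ 0 := by
    intro j hj h0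
    apply hl
    have h1 := hinj (sub_eq_zero.1 h0)
    rw [← hj, ← h1]
    rcases m with i | k <;> rfl
  rcases l with i | k
  · rw [Ph_fac_inl]
    have h1 := hne (Sum.inl i) rfl
    have h2 : aa a b c (Sum.inl i) = (a i : ℂ) := rfl
    rw [h2] at h1
    exact mul_ne_zero (by rw [Ne, C_eq_zero]; exact h1) X_ne_zero
  · rw [Ph_fac_inr, quad a b c hc k]
    have h1 := hne (Sum.inr (k, true)) rfl
    have h2 := hne (Sum.inr (k, false)) rfl
    exact mul_ne_zero (by rw [Ne, C_eq_zero]; exact mul_ne_zero h1 h2) (pow_ne_zero _ X_ne_zero)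

theorem Ph_der (ha : Function.Injective a) (hbc : Function.Injective (fun k => (b k, c k)))
    (hc : ∀ k, 0 < c k) (m : Fin r₁ ⊕ Fin r₂) :
    Ph (aa a b c (jm m)) (derivative (fac a b c m)) ≠ 0 := by
  rcases m with i | k
  · have : derivative (fac a b c (Sum.inl i)) = 1 := by
      simp only [fac, derivative_sub, derivative_X, derivative_C, sub_zero]
    rw [this, map_one]
    exact one_ne_zero
  · have h0 : derivative (fac a b c (Sum.inr k)) = 2 * (X - C (C (b k) * X)) := by
      simp only [fac, derivative_add, derivative_C, add_zero, pow_two, derivative_mul,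
        derivative_sub, derivative_X, sub_zero]
      ring
    have hs : 0 < Real.sqrt (c k) := Real.sqrt_pos.mpr (by exact_mod_cast hc k)
    have h1 : aa a b c (Sum.inr (k, true)) - (b k : ℂ) ≠ 0 := by
      intro h
      have := congrArg Complex.im h
      simp [aa] at this
      linarith
    rw [h0, map_mul, Ph_lin, map_ofNat]
    refine mul_ne_zero two_ne_zero (mul_ne_zero ?_ X_ne_zero)
    rw [Ne, C_eq_zero]
    exact h1

end fam

end Pool.Agent.R89.UP
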