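import Mathlib
import Pool.Agent.R89.UP.Count

/-!
# All primes up to a bound at once
-/

set_option autoImplicit false

namespace Pool.Agent.R89.UP

open Polynomial NumberField Pool.Agent.H33R4
open Pool.Agent.H637R2.Leo (Leopoldt)

/-- the primes which have to be excluded divide the value of a polynomial -/
theorem exists_delta (f : ℤ[X][X]) (hf : f.Monic)
    (hsep : (f.map (algebraMap ℤ[X] (FractionRing ℤ[X]))).Separable) {r : ℕ}
    (U W : Fin r → ℤ[X][X])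
    (hW : ∀ g : Fin r → ℤ[X], ∑ i, AdjoinRoot.of f (g i) *
      AdjoinRoot.mk f (jac f (U i) * W i) = 0 → g = 0) :
    ∃ Δ : ℤ[X], Δ ≠ 0 ∧ ∀ (p : ℕ) [Fact p.Prime] (t₀ : ℤ), ¬ (p : ℤ) ∣ Δ.eval t₀ →
      (spec ((t₀ : ℤ) : ZMod p) f).Separable ∧
      ∀ c : Fin r → ZMod p, ∑ i, AdjoinRoot.of (spec ((t₀ : ℤ) : ZMod p) f) (c i) *
        AdjoinRoot.mk (spec ((t₀ : ℤ) : ZMod p) f)
          (spec ((t₀ : ℤ) : ZMod p) (jac f (U i) * W i)) = 0 → c = 0 := by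
  obtain ⟨δ, A, hδ0, hδ⟩ := dlog_bezout f (algebraMap ℤ[X] (FractionRing ℤ[X]))
    (IsFractionRing.injective _ _) hsep
  obtain ⟨h, hh0, hh⟩ := dual_proof ℤ[X] f hf r (fun i => AdjoinRoot.mk f (jac f (U i) * W i)) hW
  refine ⟨δ * h, mul_ne_zero hδ0 hh0, ?_⟩
  intro p _ t₀ hnd
  rw [eval_mul] at hnd
  have hev : ∀ P : ℤ[X], (Polynomial.eval₂RingHom (Int.castRingHom (ZMod p)) ((t₀ : ℤ) : ZMod p)) P =
      ((P.eval t₀ : ℤ) : ZMod p) := by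
    intro P
    have h4 := Polynomial.hom_eval₂ P (RingHom.id ℤ) (Int.castRingHom (ZMod p)) t₀
    rw [RingHom.comp_id, Polynomial.eval₂_id] at h4
    exact h4.symm
  constructor
  · have hd : ((δ.eval t₀ : ℤ) : ZMod p) ≠ 0 := by
      rw [Ne, ZMod.intCast_zmod_eq_zero_iff_dvd]
      exact fun h => hnd (Dvd.dvd.mul_right h _)
    obtain ⟨q, hq⟩ := hδ
    have h1 := congrArg (spec ((t₀ : ℤ) : ZMod p)) hq
    rw [spec_sub, spec_mul, spec_mul, spec_derivative] at h1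
    have h2 : spec ((t₀ : ℤ) : ZMod p) (C δ) = C ((δ.eval t₀ : ℤ) : ZMod p) := by
      unfold spec
      rw [Polynomial.map_C, hev]
    rw [h2] at h1
    have h3 : (C (((δ.eval t₀ : ℤ) : ZMod p))⁻¹ : (ZMod p)[X]) * C ((δ.eval t₀ : ℤ) : ZMod p) = 1 := by
      rw [← map_mul, inv_mul_cancel₀ hd, map_one]
    refine ⟨- (C (((δ.eval t₀ : ℤ) : ZMod p))⁻¹ * spec ((t₀ : ℤ) : ZMod p) q),
      C (((δ.eval t₀ : ℤ) : ZMod p))⁻¹ * spec ((t₀ : ℤ) : ZMod p) A, ?_⟩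
    linear_combination (C (((δ.eval t₀ : ℤ) : ZMod p))⁻¹) * h1 + h3
  · intro c hc
    have hd : ((h.eval t₀ : ℤ) : ZMod p) ≠ 0 := by
      rw [Ne, ZMod.intCast_zmod_eq_zero_iff_dvd]
      exact fun h => hnd (Dvd.dvd.mul_left h _)
    funext i
    have h1 := hh (ZMod p) (Polynomial.eval₂RingHom (Int.castRingHom (ZMod p))
      ((t₀ : ℤ) : ZMod p)) c (by
        simp only [adj_map_mk]
        exact hc) i
    rw [hev] at h1
    exact (mul_eq_zero.1 h1).resolve_left hd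

/-- one odd prime -/
theorem prime_count (p : ℕ) [hp : Fact p.Prime] (hodd : p ≠ 2) (f : ℤ[X][X]) (hf : f.Monic)
    (hn : 0 < f.natDegree) {r : ℕ} (U W : Fin r → ℤ[X][X]) (huw : ∀ i, f ∣ U i * W i - 1)
    (Δ : ℤ[X])
    (hΔ : ∀ t₀ : ℤ, ¬ (p : ℤ) ∣ Δ.eval t₀ → (spec ((t₀ : ℤ) : ZMod p) f).Separable ∧
      ∀ c : Fin r → ZMod p, ∑ i, AdjoinRoot.of (spec ((t₀ : ℤ) : ZMod p) f) (c i) *
        AdjoinRoot.mk (spec ((t₀ : ℤ) : ZMod p) f)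
          (spec ((t₀ : ℤ) : ZMod p) (jac f (U i) * W i)) = 0 → c = 0) :
    ∃ S : Finset ℤ, S.card ≤ p * (r * r) ∧
      ∀ t : ℤ, ¬ (p : ℤ) ∣ Δ.eval t → Bad p f.natDegree r f t → t ∈ S := by
  classical
  have key : ∀ s : ℕ, ∃ S : Finset ℤ, S.card ≤ r * r ∧ (¬ (p : ℤ) ∣ Δ.eval (s : ℤ) →
      ∀ t : ℤ, (p : ℤ) ∣ t - s → Bad p f.natDegree r f t → t ∈ S) := by
    intro s
    by_cases h : (p : ℤ) ∣ Δ.eval (s : ℤ)
    · exact ⟨∅, Nat.zero_le _, fun h' => absurd h h'⟩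
    · obtain ⟨h1, h2⟩ := hΔ s h
      obtain ⟨S, hS1, hS2⟩ := class_count hodd f hf hn (s : ℤ) U W huw h1 h2
      exact ⟨S, hS1, fun _ => hS2⟩
  choose S hS1 hS2 using key
  refine ⟨(Finset.range p).biUnion S, ?_, ?_⟩
  · refine (Finset.card_biUnion_le_card_mul _ S (r * r) fun s _ => hS1 s).trans ?_
    rw [Finset.card_range]
  · intro t ht hB
    have hppos : (0 : ℤ) < p := by exact_mod_cast hp.out.pos
    set s : ℕ := (t % (p : ℤ)).toNat with hs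
    have hs1 : (s : ℤ) = t % p := by
      rw [hs, Int.toNat_of_nonneg (Int.emod_nonneg t hppos.ne')]
    have hs2 : s < p := by
      have := Int.emod_lt_of_pos t hppos
      rw [← hs1] at this
      exact_mod_cast this
    have hts : (p : ℤ) ∣ t - s := by
      rw [hs1]
      exact Int.dvd_self_sub_emod
    rw [Finset.mem_biUnion]
    refine ⟨s, Finset.mem_range.2 hs2, hS2 s ?_ t hts hB⟩
    intro h
    apply ht
    have h1 : (p : ℤ) ∣ Δ.eval t - Δ.eval (s : ℤ) := hts.trans (Polynomial.sub_dvd_eval_sub _ _ _)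
    have := dvd_add h1 h
    simpa using this

/-- all odd primes up to `P` -/
theorem all_odd (f : ℤ[X][X]) (hf : f.Monic) (hn : 0 < f.natDegree)
    (hsep : (f.map (algebraMap ℤ[X] (FractionRing ℤ[X]))).Separable) {r : ℕ}
    (U W : Fin r → ℤ[X][X]) (huw : ∀ i, f ∣ U i * W i - 1)
    (hW : ∀ g : Fin r → ℤ[X], ∑ i, AdjoinRoot.of f (g i) *
      AdjoinRoot.mk f (jac f (U i) * W i) = 0 → g = 0) :
    ∃ Δ : ℤ[X], Δ ≠ 0 ∧ ∀ P : ℕ, ∃ S : Finset ℤ, S.card ≤ r ^ 2 * P ^ 2 ∧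
      ∀ t ∉ S, ∀ (p : ℕ) [Fact p.Prime], p ≠ 2 → p ≤ P → ¬ (p : ℤ) ∣ Δ.eval t →
        ¬ Bad p f.natDegree r f t := by
  classical
  obtain ⟨Δ, hΔ0, hΔ⟩ := exists_delta f hf hsep U W hW
  refine ⟨Δ, hΔ0, fun P => ?_⟩
  have key : ∀ q : ℕ, ∃ S : Finset ℤ, S.card ≤ q * (r * r) ∧ ∀ (hq : q.Prime), q ≠ 2 →
      ∀ t : ℤ, ¬ (q : ℤ) ∣ Δ.eval t → ¬ @Bad q ⟨hq⟩ f.natDegree r f t ∨ t ∈ S := by
    intro q
    by_cases hq : q.Prime ∧ q ≠ 2
    · obtain ⟨hq1, hq2⟩ := hq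
      have _ : Fact q.Prime := ⟨hq1⟩
      obtain ⟨S, hS1, hS2⟩ := prime_count q hq2 f hf hn U W huw Δ (fun t₀ => hΔ q t₀)
      refine ⟨S, hS1, fun _ _ t ht => ?_⟩
      by_cases hB : Bad q f.natDegree r f t
      · exact Or.inr (hS2 t ht hB)
      · exact Or.inl hB
    · exact ⟨∅, Nat.zero_le _, fun h1 h2 => absurd ⟨h1, h2⟩ hq⟩
  choose S hS1 hS2 using key
  refine ⟨(Finset.Icc 1 P).biUnion S, ?_, ?_⟩
  · refine (Finset.card_biUnion_le_card_mul _ S (P * (r * r)) fun q hq => (hS1 q).trans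
      (Nat.mul_le_mul_right _ (Finset.mem_Icc.1 hq).2)).trans ?_
    rw [Nat.card_Icc]
    exact le_of_eq (by rw [Nat.add_sub_cancel]; ring)
  · intro t ht p hp hp2 hpP hnd
    rcases hS2 p hp.out hp2 t hnd with h | h
    · exact h
    · exfalso
      apply ht
      rw [Finset.mem_biUnion]
      exact ⟨p, Finset.mem_Icc.2 ⟨hp.out.one_lt.le, hpP⟩, h⟩

end Pool.Agent.R89.UP
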