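import Mathlib
import Pool.Agent.R89.UP.Fam
import Pool.Agent.R89.UP.Glob
import Pool.Agent.H33R4.Expl

/-!
# Leopoldt's conjecture for many primes at once in the families of every signature
-/

set_option autoImplicit false

namespace Pool.Agent.R89.UP

open Polynomial NumberField Pool.Agent.H33R4
open Pool.Agent.H637R2.Leo (Leopoldt)

section W

variable {r₁ r₂ : ℕ} (a : Fin r₁ → ℤ) (b c : Fin r₂ → ℤ)

theorem fam_natDegree : (fam a b c).natDegree = (∏ i, fac a b c i).natDegree := by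
  have h1 : fam a b c = ∏ i, fac a b c i - C 1 := by
    unfold fam
    rw [map_one]
  rw [h1, natDegree_sub_C]

theorem fam_W (ha : Function.Injective a) (hbc : Function.Injective (fun k => (b k, c k)))
    (hc : ∀ k, 0 < c k) (h : 1 ≤ r₁ + r₂) (i₀ : Fin r₁ ⊕ Fin r₂) {r : ℕ}
    (σ : Fin r → Fin r₁ ⊕ Fin r₂) (hσ : Function.Injective σ) (hσ0 : ∀ i, σ i ≠ i₀)
    (g : Fin r → ℤ[X])
    (hg : ∑ i, AdjoinRoot.of (fam a b c) (g i) * AdjoinRoot.mk (fam a b c)
      (jac (fam a b c) (fac a b c (σ i)) * ∏ l ∈ Finset.univ.erase (σ i), fac a b c l) = 0) :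
    g = 0 := by
  classical
  set f := fam a b c with hf
  set F := ∏ i, fac a b c i with hF
  set n : ℕ := ∑ i : Fin r₁ ⊕ Fin r₂, dg i with hn
  let W : Fin r₁ ⊕ Fin r₂ → ℤ[X][X] := fun m => ∏ l ∈ Finset.univ.erase m, fac a b c l
  have hfm : f.Monic := fam_monic a b c h
  have hfF : f = F - 1 := rfl
  have hFW : ∀ m, fac a b c m * W m = F := fun m => Finset.mul_prod_erase _ _ (Finset.mem_univ m)
  have hder : derivative f = derivative F := by
    rw [hfF, derivative_sub, derivative_one, sub_zero]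
  have hdT : dT f = dT F := by
    rw [hfF, dT_sub, dT_one, sub_zero]
  let Z : Fin r → ℤ[X][X] := fun i => (dg (σ i) : ℤ[X][X]) * derivative F -
    (n : ℤ[X][X]) * (derivative (fac a b c (σ i)) * W (σ i))
  have hid : ∀ i, C X * (jac f (fac a b c (σ i)) * W (σ i)) = F * Z i := by
    intro i
    have e1 := fac_euler a b c (σ i)
    have e2 := prod_euler a b c Finset.univ
    have e3 := hFW (σ i)
    rw [← hF, ← hn] at e2
    unfold jac
    rw [hder, hdT]
    simp only [Z]
    linear_combination (derivative F * W (σ i)) * e1 -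
      (derivative (fac a b c (σ i)) * W (σ i)) * e2 + (dg (σ i) : ℤ[X][X]) * derivative F * e3
  have hmkF : AdjoinRoot.mk f F = 1 := by
    have h1 : F = f + 1 := by rw [hfF]; ring
    rw [h1, map_add, AdjoinRoot.mk_self, map_one, zero_add]
  -- the relation between the `Z i`
  have hR0 : AdjoinRoot.mk f (∑ i, C (g i) * Z i) = 0 := by
    rw [map_sum]
    have h1 := congrArg (fun x => AdjoinRoot.mk f (C X) * x) hg
    simp only [mul_zero, Finset.mul_sum] at h1
    rw [← h1]
    refine Finset.sum_congr rfl fun i _ => ?_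
    have h2 : AdjoinRoot.mk f (C X) * AdjoinRoot.mk f (jac f (fac a b c (σ i)) * W (σ i)) =
        AdjoinRoot.mk f (Z i) := by
      rw [← map_mul, hid i, map_mul, hmkF, one_mul]
    rw [map_mul, AdjoinRoot.mk_C, ← h2]
    change _ = AdjoinRoot.mk f (C X) * (AdjoinRoot.of f (g i) *
      AdjoinRoot.mk f (jac f (fac a b c (σ i)) * W (σ i)))
    ring
  have hfd : f.natDegree = F.natDegree := fam_natDegree a b c
  have hFpos : 0 < F.natDegree := by
    have hmF : F.Monic := Polynomial.monic_prod_of_monic _ _ (fun i _ => (fac_monic a b c i).1)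
    have h1 := hFW i₀
    have hmW : (W i₀).Monic := Polynomial.monic_prod_of_monic _ _ (fun i _ => (fac_monic a b c i).1)
    rw [← h1, (fac_monic a b c i₀).1.natDegree_mul hmW]
    have h2 := Polynomial.natDegree_pos_iff_degree_pos.2 (fac_monic a b c i₀).2
    omega
  have hZd : ∀ i, (Z i).natDegree ≤ F.natDegree - 1 := by
    intro i
    have hmW : (W (σ i)).Monic :=
      Polynomial.monic_prod_of_monic _ _ (fun i _ => (fac_monic a b c i).1)
    have h1 : F.natDegree = (fac a b c (σ i)).natDegree + (W (σ i)).natDegree := by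
      rw [← hFW (σ i), (fac_monic a b c (σ i)).1.natDegree_mul hmW]
    have h2 := Polynomial.natDegree_pos_iff_degree_pos.2 (fac_monic a b c (σ i)).2
    refine (natDegree_sub_le _ _).trans (max_le ?_ ?_)
    · refine natDegree_mul_le.trans ?_
      rw [natDegree_natCast, zero_add]
      exact natDegree_derivative_le F
    · refine natDegree_mul_le.trans ?_
      rw [natDegree_natCast, zero_add]
      refine natDegree_mul_le.trans ?_
      have h3 := natDegree_derivative_le (fac a b c (σ i))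
      omega
  have hR : ∑ i, C (g i) * Z i = 0 := by
    by_contra hne
    rw [AdjoinRoot.mk_eq_zero] at hR0
    refine hfm.not_dvd_of_degree_lt hne ?_ hR0
    rw [degree_eq_natDegree hfm.ne_zero, hfd]
    refine lt_of_le_of_lt degree_le_natDegree ?_
    have h1 : (∑ i, C (g i) * Z i).natDegree ≤ F.natDegree - 1 := by
      apply natDegree_sum_le_of_forall_le
      intro i _
      refine natDegree_mul_le.trans ?_
      rw [natDegree_C, zero_add]
      exact hZd i
    exact_mod_cast (by omega : (∑ i, C (g i) * Z i).natDegree < F.natDegree)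
  -- evaluation at a root
  have hev : ∀ m : Fin r₁ ⊕ Fin r₂, ∃ ε : ℂ[X], ε ≠ 0 ∧
      ∑ i, (g i).map (Int.castRingHom ℂ) * ((dg (σ i) : ℂ[X]) * ε -
        (n : ℂ[X]) * (if σ i = m then ε else 0)) = 0 := by
    intro m
    set φ := Ph (aa a b c (jm m)) with hφ
    have h0 : φ (fac a b c m) = 0 := Ph_self a b c hc m
    refine ⟨φ (derivative (fac a b c m)) * φ (W m), ?_, ?_⟩
    · refine mul_ne_zero (Ph_der a b c ha hbc hc m) ?_
      rw [map_prod]
      exact Finset.prod_ne_zero_iff.2 fun l hl =>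
        Ph_ne a b c ha hbc hc m l (Finset.ne_of_mem_erase hl)
    · have h1 := congrArg φ hR
      rw [map_sum, map_zero] at h1
      refine Eq.trans (Finset.sum_congr rfl fun i _ => ?_) h1
      have h2 : φ (derivative F) = φ (derivative (fac a b c m)) * φ (W m) := by
        rw [← hFW m, derivative_mul, map_add, map_mul, map_mul, h0, zero_mul, add_zero]
      have h3 : φ (derivative (fac a b c (σ i)) * W (σ i)) =
          if σ i = m then φ (derivative (fac a b c m)) * φ (W m) else 0 := by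
        split_ifs with h4
        · rw [h4, map_mul]
        · rw [map_mul]
          have h5 : φ (W (σ i)) = 0 := by
            rw [map_prod]
            exact Finset.prod_eq_zero (Finset.mem_erase.2 ⟨fun h => h4 h.symm, Finset.mem_univ m⟩) h0
          rw [h5, mul_zero]
      have h6 : φ (C (g i)) = (g i).map (Int.castRingHom ℂ) := Ph_C _ _
      simp only [Z]
      rw [map_mul, map_sub, map_mul φ (dg (σ i) : ℤ[X][X]), map_mul φ (n : ℤ[X][X]), h2, h3,
        map_natCast, map_natCast, h6]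
  -- the sum is zero
  obtain ⟨ε0, hε0, h0⟩ := hev i₀
  have hs : ∑ i, (g i).map (Int.castRingHom ℂ) * (dg (σ i) : ℂ[X]) = 0 := by
    have h1 : ∑ i, (g i).map (Int.castRingHom ℂ) * ((dg (σ i) : ℂ[X]) * ε0 -
        (n : ℂ[X]) * (if σ i = i₀ then ε0 else 0)) =
        (∑ i, (g i).map (Int.castRingHom ℂ) * (dg (σ i) : ℂ[X])) * ε0 := by
      rw [Finset.sum_mul]
      refine Finset.sum_congr rfl fun i _ => ?_
      rw [if_neg (hσ0 i)]
      ring
    rw [h1] at h0
    exact (mul_eq_zero.1 h0).resolve_right hε0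
  have hnpos : n ≠ 0 := by
    rw [hn]
    have : dg i₀ ≤ ∑ i : Fin r₁ ⊕ Fin r₂, dg i :=
      Finset.single_le_sum (fun _ _ => Nat.zero_le _) (Finset.mem_univ i₀)
    have h2 : 1 ≤ dg i₀ := by rcases i₀ with i | k <;> simp [dg]
    omega
  funext k
  obtain ⟨ε, hε, h1⟩ := hev (σ k)
  have h2 : ∑ i, (g i).map (Int.castRingHom ℂ) * ((dg (σ i) : ℂ[X]) * ε -
      (n : ℂ[X]) * (if σ i = σ k then ε else 0)) =
      (∑ i, (g i).map (Int.castRingHom ℂ) * (dg (σ i) : ℂ[X])) * ε -
        (n : ℂ[X]) * ((g k).map (Int.castRingHom ℂ) * ε) := by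
    have h3 : ∀ i, (g i).map (Int.castRingHom ℂ) * ((dg (σ i) : ℂ[X]) * ε -
        (n : ℂ[X]) * (if σ i = σ k then ε else 0)) =
        ((g i).map (Int.castRingHom ℂ) * (dg (σ i) : ℂ[X])) * ε -
          (if i = k then (n : ℂ[X]) * ((g k).map (Int.castRingHom ℂ) * ε) else 0) := by
      intro i
      by_cases hik : i = k
      · rw [if_pos hik, hik, if_pos rfl]
        ring
      · rw [if_neg hik, if_neg (fun h => hik (hσ h))]
        ring
    rw [Finset.sum_congr rfl fun i _ => h3 i, Finset.sum_sub_distrib, ← Finset.sum_mul]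
    simp
  rw [h2, hs, zero_mul, zero_sub, neg_eq_zero] at h1
  have h3 : (n : ℂ[X]) ≠ 0 := by exact_mod_cast hnpos
  have h4 := (mul_eq_zero.1 ((mul_eq_zero.1 h1).resolve_left h3)).resolve_right hε
  exact (Polynomial.map_eq_zero_iff (RingHom.injective_int _)).1 h4

end W

/-- **Main theorem.** -/
theorem main (r₁ r₂ : ℕ) (h : 1 ≤ r₁ + r₂) (a : Fin r₁ → ℤ)
    (b c : Fin r₂ → ℤ) (ha : Function.Injective a)
    (hbc : Function.Injective (fun k => (b k, c k))) (hc : ∀ k, 0 < c k) :
    ∃ (Δ : ℤ[X]) (C₀ : ℕ), Δ ≠ 0 ∧ ∀ P : ℕ, ∃ S : Finset ℤ,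
      S.card ≤ C₀ + (r₁ + r₂ - 1) ^ 2 * P ^ 2 ∧ ∀ t ∉ S, Irreducible (spec t (fam a b c)) ∧
      ∀ (K : Type) [Field K] [NumberField K] (θ : K), aeval θ (spec t (fam a b c)) = 0 →
        IntermediateField.adjoin ℚ {θ} = ⊤ →
        InfinitePlace.nrRealPlaces K = r₁ ∧ InfinitePlace.nrComplexPlaces K = r₂ ∧
          ∀ (p : ℕ) [Fact p.Prime], p ≤ P → ¬ (p : ℤ) ∣ Δ.eval t → Leopoldt K p := by
  classical
  have hfm := fam_monic a b c h
  obtain ⟨T₁, hT₁⟩ := irr_proof r₁ r₂ a b c ha hbc hc h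
  have hne : Nonempty (Fin r₁ ⊕ Fin r₂) := by
    rcases Nat.eq_zero_or_pos r₁ with h0 | h0
    · exact ⟨Sum.inr ⟨0, by omega⟩⟩
    · exact ⟨Sum.inl ⟨0, h0⟩⟩
  obtain ⟨i₀⟩ := hne
  have hcard : Fintype.card {i : Fin r₁ ⊕ Fin r₂ // i ≠ i₀} = r₁ + r₂ - 1 := by
    rw [Fintype.card_subtype_compl]
    simp
  let eq : {i : Fin r₁ ⊕ Fin r₂ // i ≠ i₀} ≃ Fin (r₁ + r₂ - 1) := Fintype.equivFinOfCardEq hcard
  have hpos : 0 < (fam a b c).natDegree := by
    rw [fam_natDegree, Polynomial.natDegree_prod_of_monic _ _ (fun i _ => (fac_monic a b c i).1)]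
    apply Finset.sum_pos'
    · intro i _
      exact Nat.zero_le _
    · exact ⟨i₀, Finset.mem_univ _, Polynomial.natDegree_pos_iff_degree_pos.2 (fac_monic a b c i₀).2⟩
  have hsep : ((fam a b c).map (algebraMap ℤ[X] (FractionRing ℤ[X]))).Separable := by
    have h1 : Irreducible (spec (T₁ : ℤ) (fam a b c)) := hT₁ T₁ (le_abs_self _)
    have h2 : Irreducible (fam a b c) :=
      Polynomial.Monic.irreducible_of_irreducible_map
        (Polynomial.eval₂RingHom (Int.castRingHom ℤ) (T₁ : ℤ)) _ hfm h1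
    have h3 : Irreducible ((fam a b c).map (algebraMap ℤ[X] (FractionRing ℤ[X]))) :=
      (Polynomial.Monic.irreducible_iff_irreducible_map_fraction_map hfm).1 h2
    have _ : CharZero (FractionRing ℤ[X]) :=
      charZero_of_injective_algebraMap (IsFractionRing.injective ℤ[X] (FractionRing ℤ[X]))
    exact h3.separable
  obtain ⟨Δ, hΔ0, hΔ⟩ := all_odd (fam a b c) hfm hpos hsep
    (fun k => fac a b c (eq.symm k).1) (fun k => ∏ l ∈ Finset.univ.erase (eq.symm k).1, fac a b c l)
    (fun k => by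
      rw [Finset.mul_prod_erase _ _ (Finset.mem_univ _)]
      exact dvd_rfl)
    (fun g hg => fam_W a b c ha hbc hc h i₀ (fun k => (eq.symm k).1)
      (fun x y hxy => eq.symm.injective (Subtype.ext hxy)) (fun k => (eq.symm k).2) g hg)
  have _ : Fact (Nat.Prime 2) := ⟨Nat.prime_two⟩
  obtain ⟨S₂, hS₂⟩ := explicit 2 r₁ r₂ h a b c ha hbc hc
  refine ⟨Δ, S₂.card, hΔ0, fun P => ?_⟩
  obtain ⟨S, hS1, hS2⟩ := hΔ P
  refine ⟨S₂ ∪ S, ?_, ?_⟩
  · exact (Finset.card_union_le _ _).trans (Nat.add_le_add_left hS1 _)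
  · intro t ht
    rw [Finset.mem_union, not_or] at ht
    obtain ⟨hirr, hK⟩ := hS₂ t ht.1
    refine ⟨hirr, ?_⟩
    intro K _ _ θ hθ hgen
    obtain ⟨hre, hco, hL2⟩ := hK K θ hθ hgen
    refine ⟨hre, hco, ?_⟩
    intro p hp hpP hnd
    rcases eq_or_ne p 2 with rfl | hp2
    · convert hL2
    · by_contra hL
      apply hS2 t ht.2 p hp2 hpP hnd
      obtain ⟨hd, -⟩ := places_proof _ (spec_monic t hfm) hirr K θ hθ hgen
      refine ⟨K, inferInstance, inferInstance, θ, hθ, ?_, hgen, ?_, hL⟩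
      · rw [hd]
        exact hfm.natDegree_map _
      · unfold Units.rank
        rw [InfinitePlace.card_eq_nrRealPlaces_add_nrComplexPlaces, hre, hco]

end Pool.Agent.R89.UP
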