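import Mathlib
import Pool.Agent.R89.RQ.Main
import Pool.Agent.R89.UP.Main

/-!
# Leopoldt's conjecture for many primes for `ℚ(√w)`
-/

set_option autoImplicit false

namespace Pool.Agent.R89.UP

open Polynomial NumberField Pool.Agent.H33R4 Pool.Agent.R89.RQ
open Pool.Agent.H637R2.Leo (Leopoldt)

/-- Leopoldt's conjecture for `ℚ(θ)` and many primes -/
theorem leo_many (d : ℕ) (hd : 1 ≤ d) (a : Fin d → ℤ) (ha0 : ∀ i, a i ≠ 0)
    (ha : Function.Injective fun i => |a i|) :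
    ∃ (Δ : ℤ[X]) (C₀ : ℕ), Δ ≠ 0 ∧ ∀ P : ℕ, ∃ S : Finset ℤ,
      S.card ≤ C₀ + (2 * d - 1) ^ 2 * P ^ 2 ∧ ∀ t ∉ S,
      ∀ (p : ℕ) [Fact p.Prime], p ≤ P → ¬ (p : ℤ) ∣ Δ.eval t →
      ∀ (E : Type) [Field E] [NumberField E] (θ : E),
      ∏ i, (θ ^ 2 - ((a i * t : ℤ) : E) ^ 2) = 1 → IntermediateField.adjoin ℚ {θ} = ⊤ →
      Leopoldt E p := by
  obtain ⟨Δ, C₀, hΔ, h⟩ := main (d + d) 0 (by omega) (dbl a) (fun i => i.elim0) (fun i => i.elim0)
    (dbl_inj a ha0 ha) (fun i => i.elim0) (fun i => i.elim0)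
  refine ⟨Δ, C₀, hΔ, fun P => ?_⟩
  obtain ⟨S, hS1, hS2⟩ := h P
  refine ⟨S, ?_, fun t ht p _ hp hnd E _ _ θ hθ hgen => ?_⟩
  · rw [add_zero, ← two_mul] at hS1
    exact hS1
  · refine ((hS2 t ht).2 E θ ?_ hgen).2.2 p hp hnd
    have h1 : spec t (fam (dbl a) (fun i : Fin 0 => i.elim0) (fun i : Fin 0 => i.elim0)) =
        ∏ i, (X - C (dbl a i * t)) - 1 := by
      unfold fam spec
      rw [Polynomial.map_sub, Polynomial.map_one, Polynomial.map_prod, Fintype.prod_sum_type]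
      simp [fac]
    rw [h1, map_sub, map_one, map_prod, sub_eq_zero, ← hθ, ← prod_dbl]
    refine Finset.prod_congr rfl fun i _ => ?_
    simp

end Pool.Agent.R89.UP
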