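import Mathlib
import Pool.Agent.R89.UP.Glob
import Pool.Agent.H33R4.Expl

/-!
# Units which are congruent to `1` modulo `p²`
-/

set_option autoImplicit false

namespace Pool.Agent.R89.UP

open Polynomial NumberField Pool.Agent.H33R4

section ring

variable {R : Type} [CommRing R] (π : R)

theorem q_mul {x y a b : R} (hx : π ^ 2 ∣ x - 1 - π * a) (hy : π ^ 2 ∣ y - 1 - π * b) :
    π ^ 2 ∣ x * y - 1 - π * (a + b) := by
  obtain ⟨u, hu⟩ := hx
  obtain ⟨v, hv⟩ := hy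
  exact ⟨u * y + (1 + π * a) * v + a * b, by linear_combination y * hu + (1 + π * a) * hv⟩

theorem q_inv {x : Rˣ} {a : R} (hx : π ^ 2 ∣ (x : R) - 1 - π * a) :
    π ^ 2 ∣ ((x⁻¹ : Rˣ) : R) - 1 - π * (-a) := by
  obtain ⟨u, hu⟩ := hx
  have h1 : (x : R) * ((x⁻¹ : Rˣ) : R) = 1 := by rw [← Units.val_mul, mul_inv_cancel, Units.val_one]
  refine ⟨((x⁻¹ : Rˣ) : R) * (-u + a * (a + π * u)), ?_⟩
  linear_combination (-((x⁻¹ : Rˣ) : R)) * hu + (1 - π * a) * h1 +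
    (((x⁻¹ : Rˣ) : R)) * π * a * hu

theorem q_zpow {x : Rˣ} {a : R} (hx : π ^ 2 ∣ (x : R) - 1 - π * a) (c : ℤ) :
    π ^ 2 ∣ ((x ^ c : Rˣ) : R) - 1 - π * (c * a) := by
  have hnat : ∀ (x : Rˣ) (a : R), π ^ 2 ∣ (x : R) - 1 - π * a → ∀ k : ℕ,
      π ^ 2 ∣ ((x ^ k : Rˣ) : R) - 1 - π * (k * a) := by
    intro x a hx k
    induction k with
    | zero => simp
    | succ k ih =>
      rw [pow_succ x k, Units.val_mul]
      have := q_mul π ih hx
      rw [show ((k + 1 : ℕ) : R) * a = k * a + a by push_cast; ring]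
      exact this
  rcases Int.eq_nat_or_neg c with ⟨k, rfl | rfl⟩
  · have := hnat x a hx k
    simpa using this
  · have := hnat _ _ (q_inv π hx) k
    rw [zpow_neg, zpow_natCast, ← inv_pow]
    rw [show ((-(k : ℤ) : ℤ) : R) * a = k * -a by push_cast; ring]
    exact this

theorem q_prod {r : ℕ} (x : Fin r → Rˣ) (a : Fin r → R)
    (hx : ∀ i, π ^ 2 ∣ (x i : R) - 1 - π * a i) (c : Fin r → ℤ) :
    π ^ 2 ∣ ((∏ i, x i ^ c i : Rˣ) : R) - 1 - π * ∑ i, c i * a i := by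
  classical
  have : ∀ s : Finset (Fin r),
      π ^ 2 ∣ ((∏ i ∈ s, x i ^ c i : Rˣ) : R) - 1 - π * ∑ i ∈ s, c i * a i := by
    intro s
    induction s using Finset.induction_on with
    | empty => simp
    | insert i s hi ih =>
      rw [Finset.prod_insert hi, Finset.sum_insert hi, Units.val_mul]
      exact q_mul π (q_zpow π (hx i) (c i)) ih
  exact this _

/-- the units congruent to `1` -/
def unitsOne : Subgroup Rˣ where
  carrier := {x | π ∣ (x : R) - 1}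
  one_mem' := by simp
  mul_mem' := by
    rintro x y ⟨u, hu⟩ ⟨v, hv⟩
    exact ⟨u * y + v, by rw [Units.val_mul]; linear_combination (y : R) * hu + hv⟩
  inv_mem' := by
    rintro x ⟨u, hu⟩
    have h1 : (x : R) * ((x⁻¹ : Rˣ) : R) = 1 := by
      rw [← Units.val_mul, mul_inv_cancel, Units.val_one]
    exact ⟨-((x⁻¹ : Rˣ) : R) * u, by linear_combination (-((x⁻¹ : Rˣ) : R)) * hu + h1⟩

theorem mem_unitsOne {x : Rˣ} : x ∈ unitsOne π ↔ π ∣ (x : R) - 1 := Iff.rfl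

end ring

section field

variable {p : ℕ} [hp : Fact p.Prime] {K : Type} [Field K] [NumberField K]

theorem not_dvd_one : ¬ ((p : ℕ) : 𝓞 K) ∣ 1 := by
  intro h
  have h1 : IsUnit (((p : ℕ) : 𝓞 K)) := isUnit_of_dvd_one h
  have h2 := h1.map (Algebra.norm ℤ)
  have h3 : (((p : ℕ) : 𝓞 K)) = algebraMap ℤ (𝓞 K) (p : ℤ) := by simp
  rw [h3, Algebra.norm_algebraMap, RingOfIntegers.rank] at h2
  have h4 : IsUnit ((p : ℤ)) := (isUnit_pow_iff (Module.finrank_pos (R := ℚ) (M := K)).ne').1 h2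
  exact (Nat.prime_iff_prime_int.1 hp.out).not_isUnit h4

theorem root_one (hodd : p ≠ 2) (x : (𝓞 K)ˣ) (hx : x ∈ unitsOne (((p : ℕ) : 𝓞 K)))
    (h : x ^ p = 1) : x = 1 := by
  by_contra hne
  obtain ⟨a, ha⟩ := hx
  have h1 : ((x : 𝓞 K)) ^ p = 1 := by rw [← Units.val_pow_eq_pow_val, h, Units.val_one]
  have h2 : ∑ k ∈ Finset.range p, (x : 𝓞 K) ^ k = 0 := by
    have h3 := mul_geom_sum (x : 𝓞 K) p
    rw [h1, sub_self] at h3
    refine (mul_eq_zero.1 h3).resolve_left (fun h4 => hne ?_)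
    exact Units.ext (sub_eq_zero.1 h4)
  have h3 : ∀ k : ℕ, ((p : ℕ) : 𝓞 K) ^ 2 ∣ (x : 𝓞 K) ^ k - 1 - p * (k * a) := by
    intro k
    have := q_zpow (((p : ℕ) : 𝓞 K)) (x := x) (a := a) (by rw [ha, sub_self]; exact dvd_zero _) k
    simpa using this
  have h4 : ((p : ℕ) : 𝓞 K) ^ 2 ∣ ∑ k ∈ Finset.range p, ((x : 𝓞 K) ^ k - 1 - p * (k * a)) :=
    Finset.dvd_sum fun k _ => h3 k
  rw [Finset.sum_sub_distrib, Finset.sum_sub_distrib, h2, Finset.sum_const, Finset.card_range,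
    ← Finset.mul_sum, ← Finset.sum_mul, ← Nat.cast_sum] at h4
  have h5 : p ∣ ∑ k ∈ Finset.range p, k := by
    have h6 := Finset.sum_range_id_mul_two p
    have h7 : p ∣ (∑ k ∈ Finset.range p, k) * 2 := by rw [h6]; exact dvd_mul_right _ _
    refine (Nat.Coprime.dvd_of_dvd_mul_right ?_ h7)
    exact (Nat.coprime_primes hp.out Nat.prime_two).2 hodd
  obtain ⟨b, hb⟩ := h5
  rw [hb] at h4
  obtain ⟨q, hq⟩ := h4
  have hp0 : ((p : ℕ) : 𝓞 K) ≠ 0 := by exact_mod_cast hp.out.ne_zero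
  apply not_dvd_one (p := p) (K := K)
  refine ⟨-(q + b * a), ?_⟩
  apply mul_left_cancel₀ hp0
  rw [nsmul_eq_mul] at hq
  push_cast at hq
  linear_combination (-1 : 𝓞 K) * hq

variable {r : ℕ} (E : Fin r → (𝓞 K)ˣ) (h1 : ∀ i, E i ∈ unitsOne (((p : ℕ) : 𝓞 K)))
  (hB : ∀ c : Fin r → ℤ, ((p : ℕ) : 𝓞 K) ^ 2 ∣ ((∏ i, E i ^ c i : (𝓞 K)ˣ) : 𝓞 K) - 1 →
    ∀ i, (p : ℤ) ∣ c i)

include h1 hB

omit hB hp [NumberField K] in
theorem prod_mem (c : Fin r → ℤ) : ∏ i, E i ^ c i ∈ unitsOne (((p : ℕ) : 𝓞 K)) :=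
  Subgroup.prod_mem _ fun i _ => Subgroup.zpow_mem _ (h1 i) _

theorem indep (hodd : p ≠ 2) (c : Fin r → ℤ) (hc : ∏ i, E i ^ c i = 1) : c = 0 := by
  obtain ⟨n, hn⟩ : ∃ n, n = ∑ i, (c i).natAbs := ⟨_, rfl⟩
  induction n using Nat.strong_induction_on generalizing c with
  | _ n ih =>
    by_contra hne
    have h2 := hB c (by rw [hc]; simp)
    choose d hd using h2
    have h3 : (∏ i, E i ^ d i) ^ p = 1 := by
      rw [← hc, ← Finset.prod_pow]
      refine Finset.prod_congr rfl fun i _ => ?_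
      rw [hd i, ← zpow_natCast, ← zpow_mul, mul_comm]
    have h4 := root_one hodd _ (prod_mem E h1 d) h3
    have h5 : ∃ i, c i ≠ 0 := by
      by_contra h6
      exact hne (funext fun i => by_contra fun h7 => h6 ⟨i, h7⟩)
    obtain ⟨i0, hi0⟩ := h5
    have hle : ∀ i, (d i).natAbs ≤ (c i).natAbs := by
      intro i
      rw [hd i, Int.natAbs_mul, Int.natAbs_natCast]
      exact Nat.le_mul_of_pos_left _ hp.out.pos
    have hlt : (d i0).natAbs < (c i0).natAbs := by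
      rw [hd i0, Int.natAbs_mul, Int.natAbs_natCast]
      have h7 : 0 < (d i0).natAbs := by
        rw [Int.natAbs_pos]
        intro h8
        apply hi0
        rw [hd i0, h8, mul_zero]
      have := hp.out.two_le
      nlinarith
    have h6 := ih (∑ i, (d i).natAbs) (by
      rw [hn]
      exact Finset.sum_lt_sum (fun i _ => hle i) ⟨i0, Finset.mem_univ _, hlt⟩) d h4 rfl
    apply hi0
    rw [hd i0, h6]
    simp

theorem pth_power (hodd : p ≠ 2) (hr : Units.rank K = r) (η : (𝓞 K)ˣ)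
    (hη : ((p : ℕ) : 𝓞 K) ^ 2 ∣ (η : 𝓞 K) - 1) : ∃ μ : (𝓞 K)ˣ, μ ^ p = η := by
  obtain ⟨T, B, hT, hTB⟩ := PB.exists_rel hr E (fun c hc => indep E h1 hB hodd c hc) η
  obtain ⟨n, hn⟩ : ∃ n, n = T.natAbs := ⟨_, rfl⟩
  induction n using Nat.strong_induction_on generalizing T B with
  | _ n ih =>
    have hη2 : η ∈ unitsOne (((p : ℕ) : 𝓞 K) ^ 2) := hη
    have hη1 : η ∈ unitsOne (((p : ℕ) : 𝓞 K)) := (dvd_pow_self _ two_ne_zero).trans hη
    have h2 : ((p : ℕ) : 𝓞 K) ^ 2 ∣ ((∏ i, E i ^ B i : (𝓞 K)ˣ) : 𝓞 K) - 1 := by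
      rw [← hTB]
      exact Subgroup.zpow_mem _ hη2 T
    choose d hd using hB B h2
    have h3 : (∏ i, E i ^ d i) ^ p = η ^ T := by
      rw [hTB, ← Finset.prod_pow]
      refine Finset.prod_congr rfl fun i _ => ?_
      rw [hd i, ← zpow_natCast, ← zpow_mul, mul_comm]
    by_cases hpT : (p : ℤ) ∣ T
    · obtain ⟨T', hT'⟩ := hpT
      have h4 : (η ^ T' * (∏ i, E i ^ d i)⁻¹) ^ p = 1 := by
        rw [mul_pow, inv_pow, h3, ← zpow_natCast, ← zpow_mul, mul_comm T' (p : ℤ), ← hT',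
          mul_inv_cancel]
      have h5 := root_one hodd _ (Subgroup.mul_mem _ (Subgroup.zpow_mem _ hη1 T')
        (Subgroup.inv_mem _ (prod_mem E h1 d))) h4
      have hT0 : T' ≠ 0 := by
        intro h6
        apply hT
        rw [hT', h6, mul_zero]
      refine ih T'.natAbs ?_ T' d hT0 (mul_inv_eq_one.1 h5) rfl
      rw [hn, hT', Int.natAbs_mul, Int.natAbs_natCast]
      have h7 : 0 < T'.natAbs := Int.natAbs_pos.2 hT0
      have := hp.out.two_le
      nlinarith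
    · have hcop : IsCoprime (p : ℤ) T :=
        ((Nat.prime_iff_prime_int.1 hp.out).coprime_iff_not_dvd).2 hpT
      obtain ⟨b, a, hab⟩ := hcop
      refine ⟨(∏ i, E i ^ d i) ^ a * η ^ b, ?_⟩
      rw [mul_pow, ← zpow_natCast, ← zpow_natCast, ← zpow_mul, mul_comm a (p : ℤ), zpow_mul,
        zpow_natCast, h3, ← zpow_mul, ← zpow_mul, ← zpow_add]
      have : T * a + b * (p : ℤ) = 1 := by linarith
      rw [this, zpow_one]

end field

end Pool.Agent.R89.UP
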