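import Mathlib
import Pool.Agent.R89.UP.Triv1

/-!
# The integral basis `1, θ, θ², …` away from the discriminant
-/

set_option autoImplicit false

namespace Pool.Agent.R89.UP

open Polynomial NumberField Pool.Agent.H33R4

/-- `ℤ[θ]` is maximal at the primes which do not divide the discriminant -/
theorem pmax {p : ℕ} [hp : Fact p.Prime] {g : ℤ[X]} (hg : g.Monic) {K : Type} [Field K]
    [NumberField K] {θ : K} (h : aeval θ g = 0) (hd : Module.finrank ℚ K = g.natDegree)
    (ht : IntermediateField.adjoin ℚ {θ} = ⊤)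
    (hsep : (g.map (Int.castRingHom (ZMod p))).Separable) (m : ℤ[X]) (hm : m.degree < g.degree)
    (y : 𝓞 K) (hy : ((p : ℕ) : 𝓞 K) * y = aeval (PB.th hg h) m) : ∀ j, (p : ℤ) ∣ m.coeff j := by
  set x : 𝓞 K := PB.th hg h with hx
  have hgx : aeval x g = 0 := by
    apply RingOfIntegers.ext
    rw [aeval_def, PB.th_eval, h]
    rfl
  have hi : IsIntegral ℤ x := RingOfIntegers.isIntegral x
  have hmin : minpoly ℤ x = g := by
    have h1 := PB.minpoly_eq hg h hd ht
    rw [← h1]
    exact (minpoly.algebraMap_eq (RingOfIntegers.coe_injective) x).symm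
  have htop : Algebra.adjoin ℚ {algebraMap (𝓞 K) K x} = ⊤ := by
    have h1 : algebraMap (𝓞 K) K x = θ := rfl
    have hiq : IsIntegral ℚ θ := (PB.integral hg h).tower_top
    rw [h1, ← IntermediateField.adjoin_simple_toSubalgebra_of_isAlgebraic hiq.isAlgebraic, ht]
    rfl
  have hcond : ∀ b : 𝓞 K, aeval x (derivative g) * b ∈ Algebra.adjoin ℤ {x} := by
    have h1 := conductor_mul_differentIdeal ℤ ℚ K x htop
    rw [hmin] at h1
    have h2 : aeval x (derivative g) ∈ conductor ℤ x := by
      apply Ideal.mul_le_left (J := differentIdeal ℤ (𝓞 K))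
      rw [h1]
      exact Ideal.mem_span_singleton_self _
    exact mem_conductor_iff.1 h2
  obtain ⟨a', b', hab⟩ := hsep
  obtain ⟨a, rfl⟩ := Polynomial.map_surjective (Int.castRingHom (ZMod p)) ZMod.intCast_surjective a'
  obtain ⟨b, rfl⟩ := Polynomial.map_surjective (Int.castRingHom (ZMod p)) ZMod.intCast_surjective b'
  have hq : C (p : ℤ) ∣ a * g + b * derivative g - 1 := by
    rw [Polynomial.C_dvd_iff_dvd_coeff]
    intro i
    rw [← ZMod.intCast_zmod_eq_zero_iff_dvd]
    have h1 := congrArg (fun P => Polynomial.coeff P i) hab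
    have h2 : (((a * g + b * derivative g - 1).coeff i : ℤ) : ZMod p) =
        ((a * g + b * derivative g - 1).map (Int.castRingHom (ZMod p))).coeff i := by
      rw [coeff_map]; rfl
    rw [h2]
    have h3 : (a * g + b * derivative g - 1).map (Int.castRingHom (ZMod p)) = 0 := by
      rw [Polynomial.map_sub, Polynomial.map_add, Polynomial.map_mul, Polynomial.map_mul,
        Polynomial.map_one, ← Polynomial.derivative_map, hab, sub_self]
    rw [h3, coeff_zero]
  obtain ⟨q, hq⟩ := hq
  have hev : aeval x b * aeval x (derivative g) = 1 + (p : 𝓞 K) * aeval x q := by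
    have h1 := congrArg (aeval x) hq
    rw [map_sub, map_add, map_mul, map_mul, map_mul, map_one, hgx, mul_zero, zero_add, aeval_C] at h1
    simp only [algebraMap_int_eq, eq_intCast, Int.cast_natCast] at h1
    linear_combination h1
  have hyA : y ∈ Algebra.adjoin ℤ {x} := by
    have h1 : y = aeval x b * (aeval x (derivative g) * y) - aeval x q * aeval x m := by
      rw [← hy]
      linear_combination (-y) * hev
    rw [h1]
    exact sub_mem (mul_mem (aeval_mem_adjoin_singleton ℤ x) (hcond y))
      (mul_mem (aeval_mem_adjoin_singleton ℤ x) (aeval_mem_adjoin_singleton ℤ x))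
  rw [Algebra.adjoin_singleton_eq_range_aeval] at hyA
  obtain ⟨n, hn⟩ := hyA
  have hn' : aeval x n = y := hn
  set n' := n %ₘ g with hn'def
  have h1 : aeval x n' = y := by
    have h2 := Polynomial.modByMonic_add_div n g
    have h3 := congrArg (aeval x) h2
    rw [map_add, map_mul, hgx, zero_mul, add_zero] at h3
    rw [hn'def, h3, hn']
  have h2 : aeval x (m - C (p : ℤ) * n') = 0 := by
    rw [map_sub, map_mul, aeval_C, h1, ← hy]
    simp
  have h3 : g ∣ m - C (p : ℤ) * n' := by
    rw [← hmin]
    exact minpoly.isIntegrallyClosed_dvd hi h2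
  have h4 : m - C (p : ℤ) * n' = 0 := by
    by_contra hne
    refine hg.not_dvd_of_degree_lt hne ?_ h3
    refine (degree_sub_le _ _).trans_lt (max_lt hm ?_)
    rw [← Polynomial.smul_eq_C_mul]
    exact (degree_smul_le _ _).trans_lt (degree_modByMonic_lt _ hg)
  intro j
  rw [sub_eq_zero.1 h4, coeff_C_mul]
  exact dvd_mul_right _ _

end Pool.Agent.R89.UP
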