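import Mathlib
import Pool.Agent.R89.UP.Triv2

/-!
# Triviality of the normalised `p`-adic regulator for most classes modulo `p²`
-/

set_option autoImplicit false

namespace Pool.Agent.R89.UP

open Polynomial NumberField Pool.Agent.H33R4

variable {p : ℕ} [hp : Fact p.Prime]

theorem spec_coeff_int (t : ℤ) (P : ℤ[X][X]) (j : ℕ) :
    (spec t P).coeff j = (P.coeff j).eval t := by
  have h1 := spec_coeff (A := ℤ) t P j
  simpa using h1

/-- independent first order coordinates -/
theorem local_triv (f : ℤ[X][X]) (hf : f.Monic) (hn : 0 < f.natDegree)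
    (t₀ t : ℤ) (htt : (p : ℤ) ∣ t - t₀) {r : ℕ} (U W : Fin r → ℤ[X][X])
    (huw : ∀ i, f ∣ U i * W i - 1) {M : ℕ}
    (hU : ∀ i, (AdjoinRoot.mk (spec ((t₀ : ℤ) : ZMod p) f) (spec ((t₀ : ℤ) : ZMod p) (U i))) ^ M = 1)
    (hsep : (spec ((t₀ : ℤ) : ZMod p) f).Separable)
    (hrow : ∀ c : Fin r → ZMod p, (∀ j, ∑ i, c i * alpha p f U M t i j = 0) → c = 0)
    (K : Type) [Field K] [NumberField K] (θ : K) (h : aeval θ (spec t f) = 0)
    (hd : Module.finrank ℚ K = f.natDegree) (ht : IntermediateField.adjoin ℚ {θ} = ⊤) :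
    ∃ E : Fin r → (𝓞 K)ˣ, (∀ i, E i ∈ unitsOne (((p : ℕ) : 𝓞 K))) ∧
      ∀ c : Fin r → ℤ, ((p : ℕ) : 𝓞 K) ^ 2 ∣ ((∏ i, E i ^ c i : (𝓞 K)ˣ) : 𝓞 K) - 1 →
        ∀ i, (p : ℤ) ∣ c i := by
  classical
  set g := spec t f with hgdef
  have hg : g.Monic := spec_monic t hf
  have hgd : g.natDegree = f.natDegree := hf.natDegree_map _
  have hd' : Module.finrank ℚ K = g.natDegree := by rw [hd, hgd]
  have hgz : g.map (Int.castRingHom (ZMod p)) = spec ((t : ℤ) : ZMod p) f := by
    ext1 j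
    rw [coeff_map, hgdef, spec_coeff_int, spec_coeff]
    rfl
  have htz : ((t : ℤ) : ZMod p) = ((t₀ : ℤ) : ZMod p) := by
    rw [← sub_eq_zero, ← Int.cast_sub, ZMod.intCast_zmod_eq_zero_iff_dvd]
    exact htt
  have hsepg : (g.map (Int.castRingHom (ZMod p))).Separable := by rw [hgz, htz]; exact hsep
  set x : 𝓞 K := PB.th hg h with hx
  have hgx : aeval x g = 0 := by
    apply RingOfIntegers.ext
    rw [aeval_def, PB.th_eval, h]
    rfl
  let ev : ℤ[X][X] → 𝓞 K := fun P => aeval x (spec t P)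
  have ev_mul : ∀ P Q, ev (P * Q) = ev P * ev Q := by
    intro P Q; simp only [ev, spec_mul, map_mul]
  have hf0 : ev f = 0 := hgx
  have huv : ∀ i, ev (U i) * ev (W i) = 1 := by
    intro i
    obtain ⟨q, hq⟩ := huw i
    have h1 : U i * W i = f * q + 1 := by rw [← hq]; ring
    rw [← ev_mul, h1]
    simp only [ev, spec_add, spec_mul, spec_one, map_add, map_mul, map_one]
    have : aeval x (spec t f) = 0 := hgx
    rw [this, zero_mul, zero_add]
  let u : Fin r → (𝓞 K)ˣ := fun i => ⟨ev (U i), ev (W i), huv i, by rw [mul_comm]; exact huv i⟩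
  have hppos : (p : ℤ) ≠ 0 := by exact_mod_cast hp.out.ne_zero
  have hdv := fun i j => H_dvd f hf hn t₀ (hU i) htt j
  choose e he using hdv
  have hM : ∀ i, ((u i ^ M : (𝓞 K)ˣ) : 𝓞 K) =
      1 + (p : 𝓞 K) * ∑ j ∈ Finset.range f.natDegree, (e i j : 𝓞 K) * x ^ j := by
    intro i
    have h1 : ((u i ^ M : (𝓞 K)ˣ) : 𝓞 K) = aeval x (spec t (U i ^ M %ₘ f)) := by
      rw [Units.val_pow_eq_pow_val]
      show ev (U i) ^ M = _
      have h2 : U i ^ M = (U i ^ M %ₘ f) + f * (U i ^ M /ₘ f) :=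
        (Polynomial.modByMonic_add_div _ f).symm
      have h3 : ev (U i) ^ M = aeval x (spec t (U i ^ M)) := by
        simp only [ev]
        rw [← map_pow, spec_pow]
      have h4 : aeval x (spec t f) = 0 := hgx
      rw [h3]
      conv_lhs => rw [h2]
      rw [spec_add, spec_mul, map_add, map_mul, h4, zero_mul, add_zero]
    have hdeg : (spec t (U i ^ M %ₘ f)).natDegree < f.natDegree := by
      have h5 : (U i ^ M %ₘ f).natDegree < f.natDegree :=
        Polynomial.natDegree_modByMonic_lt _ hf (by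
          intro h6
          rw [h6, natDegree_one] at hn
          exact lt_irrefl _ hn)
      exact (natDegree_map_le).trans_lt h5
    rw [h1, Polynomial.aeval_eq_sum_range' hdeg]
    have h6 : ∀ j ∈ Finset.range f.natDegree, (spec t (U i ^ M %ₘ f)).coeff j • x ^ j =
        (if j = 0 then 1 else 0) + (p : 𝓞 K) * ((e i j : 𝓞 K) * x ^ j) := by
      intro j _
      rw [spec_coeff_int]
      have h7 := he i j
      have h8 : ((U i ^ M %ₘ f).coeff j).eval t = (if j = 0 then 1 else 0) + p * e i j := by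
        linarith
      rw [h8, zsmul_eq_mul]
      split_ifs with h9
      · subst h9
        push_cast
        ring
      · push_cast
        ring
    rw [Finset.sum_congr rfl h6, Finset.sum_add_distrib, ← Finset.mul_sum]
    congr 1
    rw [Finset.sum_ite_eq' (Finset.range f.natDegree) 0 (fun _ => (1 : 𝓞 K))]
    rw [if_pos (Finset.mem_range.2 hn)]
  refine ⟨fun i => u i ^ M, fun i => ⟨_, by rw [hM i, add_sub_cancel_left]⟩, ?_⟩
  intro c hc
  have h1 := q_prod (((p : ℕ) : 𝓞 K)) (fun i => u i ^ M)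
    (fun i => ∑ j ∈ Finset.range f.natDegree, (e i j : 𝓞 K) * x ^ j)
    (fun i => by rw [hM i, add_sub_cancel_left, sub_self]; exact dvd_zero _) c
  have h2 : ((p : ℕ) : 𝓞 K) ^ 2 ∣ (p : 𝓞 K) *
      ∑ i, (c i : 𝓞 K) * ∑ j ∈ Finset.range f.natDegree, (e i j : 𝓞 K) * x ^ j := by
    have h3 := dvd_sub hc h1
    rwa [sub_sub_cancel] at h3
  have hp0 : ((p : ℕ) : 𝓞 K) ≠ 0 := by exact_mod_cast hp.out.ne_zero
  rw [pow_two] at h2
  obtain ⟨y, hy⟩ := (mul_dvd_mul_iff_left hp0).1 h2
  let m : ℤ[X] := ∑ j ∈ Finset.range f.natDegree, monomial j (∑ i, c i * e i j)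
  have hmc : ∀ j, m.coeff j = if j < f.natDegree then ∑ i, c i * e i j else 0 := by
    intro j
    simp only [m, finsetSum_coeff, coeff_monomial]
    rw [Finset.sum_ite_eq' (Finset.range f.natDegree) j]
    simp only [Finset.mem_range]
  have hmd : m.degree < g.degree := by
    rw [degree_eq_natDegree hg.ne_zero, hgd, Polynomial.degree_lt_iff_coeff_zero]
    intro j hj
    rw [hmc, if_neg (not_lt.2 hj)]
  have hmx : ((p : ℕ) : 𝓞 K) * y = aeval (PB.th hg h) m := by
    rw [← hy, ← hx]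
    simp only [m, map_sum, aeval_monomial]
    simp_rw [Finset.mul_sum]
    rw [Finset.sum_comm]
    refine Finset.sum_congr rfl fun j _ => ?_
    refine Finset.sum_congr rfl fun i _ => ?_
    simp only [algebraMap_int_eq, eq_intCast, Int.cast_mul]
    ring
  have h3 := pmax hg h hd' ht hsepg m hmd y hmx
  have h4 : (fun i => ((c i : ℤ) : ZMod p)) = 0 := by
    apply hrow
    intro j
    have h5 := h3 j
    rw [hmc, if_pos j.2, ← ZMod.intCast_zmod_eq_zero_iff_dvd] at h5
    push_cast at h5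
    rw [← h5]
    refine Finset.sum_congr rfl fun i _ => ?_
    congr 1
    unfold alpha
    rw [he i j, Int.mul_ediv_cancel_left _ hppos]
  intro i
  rw [← ZMod.intCast_zmod_eq_zero_iff_dvd]
  exact congrFun h4 i

end Pool.Agent.R89.UP
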