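import Mathlib
import Pool.Agent.R89.UP.Triv3

/-!
# The exceptional classes modulo `p²`
-/

set_option autoImplicit false

namespace Pool.Agent.R89.UP

open Polynomial NumberField Pool.Agent.H33R4
open Pool.Agent.H637R2.Leo (Leopoldt)

variable {p : ℕ} [hp : Fact p.Prime]

/-- the conclusion for the field of one integer `t` -/
def Fine (p : ℕ) [Fact p.Prime] (f : ℤ[X][X]) (r : ℕ) (t : ℤ) : Prop :=
  ∀ (K : Type) [Field K] [NumberField K] (θ : K), aeval θ (spec t f) = 0 →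
    Module.finrank ℚ K = f.natDegree → IntermediateField.adjoin ℚ {θ} = ⊤ →
    (Units.rank K = r → Leopoldt K p) ∧
    ∃ E : Fin r → (𝓞 K)ˣ, (∀ i, E i ∈ unitsOne (((p : ℕ) : 𝓞 K))) ∧
      ∀ c : Fin r → ℤ, ((p : ℕ) : 𝓞 K) ^ 2 ∣ ((∏ i, E i ^ c i : (𝓞 K)ˣ) : 𝓞 K) - 1 →
        ∀ i, (p : ℤ) ∣ c i

/-- a good class modulo `p` -/
theorem class_fine (hodd : p ≠ 2) (f : ℤ[X][X]) (hf : f.Monic) (hn : 0 < f.natDegree)
    (t₀ : ℤ) {r : ℕ} (U W : Fin r → ℤ[X][X]) (huw : ∀ i, f ∣ U i * W i - 1)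
    (hsep : (spec ((t₀ : ℤ) : ZMod p) f).Separable)
    (hgood : ∀ c : Fin r → ZMod p, ∑ i, AdjoinRoot.of (spec ((t₀ : ℤ) : ZMod p) f) (c i) *
      AdjoinRoot.mk (spec ((t₀ : ℤ) : ZMod p) f) (spec ((t₀ : ℤ) : ZMod p) (jac f (U i) * W i)) = 0 →
      c = 0) :
    ∃ R : Finset (ZMod p), R.card ≤ r ∧
      ∀ m : ℤ, ((m : ℤ) : ZMod p) ∉ R → Fine p f r (t₀ + p * m) := by
  classical
  have hf0 : (spec ((t₀ : ℤ) : ZMod p) f).Monic := spec_monic _ hf
  obtain ⟨M, hM, hMp, hMu⟩ := exists_exp (spec ((t₀ : ℤ) : ZMod p) f) hf0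
    (by rw [show (spec ((t₀ : ℤ) : ZMod p) f).natDegree = f.natDegree from hf.natDegree_map _]
        exact hn) hsep
  have hU : ∀ i, (AdjoinRoot.mk (spec ((t₀ : ℤ) : ZMod p) f)
      (spec ((t₀ : ℤ) : ZMod p) (U i))) ^ M = 1 := by
    intro i
    apply hMu _ (AdjoinRoot.mk (spec ((t₀ : ℤ) : ZMod p) f) (spec ((t₀ : ℤ) : ZMod p) (W i)))
    obtain ⟨g, hg⟩ := huw i
    have h1 : U i * W i = f * g + 1 := by rw [← hg]; ring
    have h2 := congrArg (fun P => AdjoinRoot.mk (spec ((t₀ : ℤ) : ZMod p) f)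
      (spec ((t₀ : ℤ) : ZMod p) P)) h1
    simp only [spec_mul, spec_add, spec_one, map_mul, map_add, map_one] at h2
    rw [AdjoinRoot.mk_self, zero_mul, zero_add] at h2
    exact h2
  obtain ⟨D, hD⟩ := exists_right_inverse (beta p f U M t₀)
    (fun c hc => rows_indep f hf hn t₀ U W huw hM hMp hU hgood c hc)
  set A0 : Matrix (Fin r) (Fin r) (ZMod p) :=
    Matrix.of fun i k => ∑ j, alpha p f U M t₀ i j * D j k with hA0
  have hAs : ∀ s : ℤ, (Matrix.of fun i k => ∑ j, alpha p f U M (t₀ + p * s) i j * D j k) =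
      ((s : ℤ) : ZMod p) • (1 : Matrix (Fin r) (Fin r) (ZMod p)) + A0 := by
    intro s
    ext1 i k
    simp only [hA0, Matrix.of_apply, Matrix.add_apply, Matrix.smul_apply, smul_eq_mul]
    have h1 : ∀ j : Fin f.natDegree, alpha p f U M (t₀ + p * s) i j * D j k =
        (s : ZMod p) * (beta p f U M t₀ i j * D j k) + alpha p f U M t₀ i j * D j k := by
      intro j
      rw [alpha_shift f hf hn t₀ U hU s i j]
      ring
    rw [Finset.sum_congr rfl fun j _ => h1 j, Finset.sum_add_distrib, ← Finset.mul_sum, hD i k,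
      Matrix.one_apply]
  set Q : (ZMod p)[X] := ((X : (ZMod p)[X]) • (1 : Matrix (Fin r) (Fin r) (ZMod p)).map C +
    A0.map C).det with hQ
  have hQe : ∀ x : ZMod p, Q.eval x = (x • (1 : Matrix (Fin r) (Fin r) (ZMod p)) + A0).det := by
    intro x
    have h1 : Q.eval x = Polynomial.evalRingHom x Q := rfl
    rw [h1, hQ, RingHom.map_det]
    congr 1
    ext1 i k
    simp only [RingHom.mapMatrix_apply, Matrix.map_apply, Matrix.add_apply, Matrix.smul_apply,
      smul_eq_mul, map_add, coe_evalRingHom, eval_mul, eval_X, eval_C]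
  have hQr : Q.coeff r = 1 := by
    have h1 := Polynomial.coeff_det_X_add_C_card (1 : Matrix (Fin r) (Fin r) (ZMod p)) A0
    rw [Fintype.card_fin] at h1
    rw [hQ, h1, Matrix.det_one]
  have hQ0 : Q ≠ 0 := by
    intro h0
    rw [h0, coeff_zero] at hQr
    exact zero_ne_one hQr
  have hQd : Q.natDegree ≤ r := by
    have h1 := Polynomial.natDegree_det_X_add_C_le (1 : Matrix (Fin r) (Fin r) (ZMod p)) A0
    rw [Fintype.card_fin] at h1
    exact h1
  refine ⟨Q.roots.toFinset, (Multiset.toFinset_card_le _).trans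
    ((Polynomial.card_roots' Q).trans hQd), ?_⟩
  intro m hm
  have hdet : (Matrix.of fun i k => ∑ j, alpha p f U M (t₀ + p * m) i j * D j k).det ≠ 0 := by
    rw [hAs m, ← hQe]
    intro h0
    apply hm
    rw [Multiset.mem_toFinset, Polynomial.mem_roots hQ0]
    exact h0
  intro K _ _ θ hθ hKn hgen
  refine ⟨?_, ?_⟩
  · intro hr
    by_contra hL
    obtain ⟨G, -, hG2, hG3⟩ := local_series hodd f hf hn t₀ (t₀ + p * m)
      (by rw [add_sub_cancel_left]; exact dvd_mul_right _ _) U W huw hM hU D hD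
    obtain ⟨S0, h1, h2⟩ := class_sq G 0 (hG2 hdet) (t₀ + p * m) (Bad p f.natDegree r f) hG3
    have h3 := h2 (t₀ + p * m) (by simp) ⟨K, inferInstance, inferInstance, θ, hθ, hKn, hgen, hr, hL⟩
    rw [Nat.le_zero, Finset.card_eq_zero] at h1
    rw [h1] at h3
    exact absurd h3 (Finset.notMem_empty _)
  · refine local_triv f hf hn t₀ (t₀ + p * m) (by rw [add_sub_cancel_left]; exact dvd_mul_right _ _)
      U W huw hU hsep ?_ K θ hθ hKn hgen
    intro c hc
    apply Matrix.eq_zero_of_vecMul_eq_zero hdet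
    ext k
    simp only [Matrix.vecMul, dotProduct, Matrix.of_apply, Pi.zero_apply]
    simp_rw [Finset.mul_sum]
    rw [Finset.sum_comm]
    apply Finset.sum_eq_zero
    intro j _
    have h1 : ∀ i, c i * (alpha p f U M (t₀ + p * m) i j * D j k) =
        (c i * alpha p f U M (t₀ + p * m) i j) * D j k := fun i => by ring
    rw [Finset.sum_congr rfl fun i _ => h1 i, ← Finset.sum_mul, hc j, zero_mul]

/-- one odd prime -/
theorem prime_fine (p : ℕ) [hp : Fact p.Prime] (hodd : p ≠ 2) (f : ℤ[X][X]) (hf : f.Monic)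
    (hn : 0 < f.natDegree) {r : ℕ} (U W : Fin r → ℤ[X][X]) (huw : ∀ i, f ∣ U i * W i - 1)
    (Δ : ℤ[X])
    (hΔ : ∀ t₀ : ℤ, ¬ (p : ℤ) ∣ Δ.eval t₀ → (spec ((t₀ : ℤ) : ZMod p) f).Separable ∧
      ∀ c : Fin r → ZMod p, ∑ i, AdjoinRoot.of (spec ((t₀ : ℤ) : ZMod p) f) (c i) *
        AdjoinRoot.mk (spec ((t₀ : ℤ) : ZMod p) f)
          (spec ((t₀ : ℤ) : ZMod p) (jac f (U i) * W i)) = 0 → c = 0) :
    ∃ B : Finset (ZMod (p ^ 2)), B.card ≤ r * p ∧
      ∀ t : ℤ, ¬ (p : ℤ) ∣ Δ.eval t → ((t : ℤ) : ZMod (p ^ 2)) ∉ B → Fine p f r t := by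
  classical
  have key : ∀ s : ℕ, ∃ R : Finset (ZMod p), R.card ≤ r ∧ (¬ (p : ℤ) ∣ Δ.eval (s : ℤ) →
      ∀ m : ℤ, ((m : ℤ) : ZMod p) ∉ R → Fine p f r (s + p * m)) := by
    intro s
    by_cases h : (p : ℤ) ∣ Δ.eval (s : ℤ)
    · exact ⟨∅, Nat.zero_le _, fun h' => absurd h h'⟩
    · obtain ⟨h1, h2⟩ := hΔ s h
      obtain ⟨R, hR1, hR2⟩ := class_fine hodd f hf hn (s : ℤ) U W huw h1 h2
      exact ⟨R, hR1, fun _ => hR2⟩
  choose R hR1 hR2 using key
  refine ⟨(Finset.range p).biUnion fun s => (R s).image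
    fun m : ZMod p => ((s + p * m.val : ℕ) : ZMod (p ^ 2)), ?_, ?_⟩
  · refine (Finset.card_biUnion_le_card_mul _ _ r fun s _ =>
      Finset.card_image_le.trans (hR1 s)).trans ?_
    rw [Finset.card_range, mul_comm]
  · intro t ht hB
    have hppos : (0 : ℤ) < p := by exact_mod_cast hp.out.pos
    set s : ℕ := (t % (p : ℤ)).toNat with hs
    have hs1 : (s : ℤ) = t % p := by
      rw [hs, Int.toNat_of_nonneg (Int.emod_nonneg t hppos.ne')]
    have hs2 : s < p := by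
      have := Int.emod_lt_of_pos t hppos
      rw [← hs1] at this
      exact_mod_cast this
    have hts : (p : ℤ) ∣ t - s := by
      rw [hs1]
      exact Int.dvd_self_sub_emod
    obtain ⟨m, hm⟩ := hts
    have htm : t = s + p * m := by linarith
    have hnd : ¬ (p : ℤ) ∣ Δ.eval (s : ℤ) := by
      intro h
      apply ht
      have h0 : (p : ℤ) ∣ t - s := ⟨m, hm⟩
      have h1 : (p : ℤ) ∣ Δ.eval t - Δ.eval (s : ℤ) :=
        h0.trans (Polynomial.sub_dvd_eval_sub _ _ _)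
      have := dvd_add h1 h
      simpa using this
    rw [htm]
    apply hR2 s hnd m
    intro hmem
    apply hB
    rw [Finset.mem_biUnion]
    refine ⟨s, Finset.mem_range.2 hs2, ?_⟩
    rw [Finset.mem_image]
    refine ⟨_, hmem, ?_⟩
    have h2 : (p : ℤ) ∣ m - (((m : ℤ) : ZMod p).val : ℤ) := by
      rw [← ZMod.intCast_zmod_eq_zero_iff_dvd]
      push_cast
      rw [ZMod.natCast_zmod_val, sub_self]
    obtain ⟨q, hq⟩ := h2
    have h3 : (((s + p * ((m : ℤ) : ZMod p).val : ℕ) : ℤ) : ZMod (p ^ 2)) = ((t : ℤ) : ZMod (p ^ 2)) := by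
      rw [ZMod.intCast_eq_intCast_iff_dvd_sub]
      refine ⟨q, ?_⟩
      push_cast
      rw [htm]
      linear_combination (p : ℤ) * hq
    rw [← h3]
    simp

end Pool.Agent.R89.UP
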