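import Mathlib
import Pool.Agent.R89.UP.Triv2

/-!
# Unramified primes
-/

set_option autoImplicit false

namespace Pool.Agent.R89.UP

open Polynomial NumberField Pool.Agent.H33R4

/-- approximation by elements of `ℤ[θ]` -/
theorem exists_approx {p : ℕ} [hp : Fact p.Prime] {g : ℤ[X]} (hg : g.Monic) {K : Type} [Field K]
    [NumberField K] {θ : K} (h : aeval θ g = 0) (hd : Module.finrank ℚ K = g.natDegree)
    (ht : IntermediateField.adjoin ℚ {θ} = ⊤)
    (hsep : (g.map (Int.castRingHom (ZMod p))).Separable) (y : 𝓞 K) :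
    ∃ n : ℤ[X], ((p : ℕ) : 𝓞 K) ∣ y - aeval (PB.th hg h) n := by
  set x : 𝓞 K := PB.th hg h with hx
  have hgx : aeval x g = 0 := by
    apply RingOfIntegers.ext
    rw [aeval_def, PB.th_eval, h]
    rfl
  have hi : IsIntegral ℤ x := RingOfIntegers.isIntegral x
  have hmin : minpoly ℤ x = g := by
    have h1 := PB.minpoly_eq hg h hd ht
    rw [← h1]
    exact (minpoly.algebraMap_eq (RingOfIntegers.coe_injective) x).symm
  have htop : Algebra.adjoin ℚ {algebraMap (𝓞 K) K x} = ⊤ := by
    have h1 : algebraMap (𝓞 K) K x = θ := rfl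
    have hiq : IsIntegral ℚ θ := (PB.integral hg h).tower_top
    rw [h1, ← IntermediateField.adjoin_simple_toSubalgebra_of_isAlgebraic hiq.isAlgebraic, ht]
    rfl
  have hcond : ∀ b : 𝓞 K, aeval x (derivative g) * b ∈ Algebra.adjoin ℤ {x} := by
    have h1 := conductor_mul_differentIdeal ℤ ℚ K x htop
    rw [hmin] at h1
    have h2 : aeval x (derivative g) ∈ conductor ℤ x := by
      apply Ideal.mul_le_left (J := differentIdeal ℤ (𝓞 K))
      rw [h1]
      exact Ideal.mem_span_singleton_self _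
    exact mem_conductor_iff.1 h2
  obtain ⟨a', b', hab⟩ := hsep
  obtain ⟨a, rfl⟩ := Polynomial.map_surjective (Int.castRingHom (ZMod p)) ZMod.intCast_surjective a'
  obtain ⟨b, rfl⟩ := Polynomial.map_surjective (Int.castRingHom (ZMod p)) ZMod.intCast_surjective b'
  have hq : C (p : ℤ) ∣ a * g + b * derivative g - 1 := by
    rw [Polynomial.C_dvd_iff_dvd_coeff]
    intro i
    rw [← ZMod.intCast_zmod_eq_zero_iff_dvd]
    have h2 : (((a * g + b * derivative g - 1).coeff i : ℤ) : ZMod p) =
        ((a * g + b * derivative g - 1).map (Int.castRingHom (ZMod p))).coeff i := by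
      rw [coeff_map]; rfl
    rw [h2]
    have h3 : (a * g + b * derivative g - 1).map (Int.castRingHom (ZMod p)) = 0 := by
      rw [Polynomial.map_sub, Polynomial.map_add, Polynomial.map_mul, Polynomial.map_mul,
        Polynomial.map_one, ← Polynomial.derivative_map, hab, sub_self]
    rw [h3, coeff_zero]
  obtain ⟨q, hq⟩ := hq
  have hev : aeval x b * aeval x (derivative g) = 1 + (p : 𝓞 K) * aeval x q := by
    have h1 := congrArg (aeval x) hq
    rw [map_sub, map_add, map_mul, map_mul, map_mul, map_one, hgx, mul_zero, zero_add, aeval_C] at h1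
    simp only [algebraMap_int_eq, eq_intCast, Int.cast_natCast] at h1
    linear_combination h1
  have hyA : aeval x b * (aeval x (derivative g) * y) ∈ Algebra.adjoin ℤ {x} :=
    mul_mem (aeval_mem_adjoin_singleton ℤ x) (hcond y)
  rw [Algebra.adjoin_singleton_eq_range_aeval] at hyA
  obtain ⟨n, hn⟩ := hyA
  have hn' : aeval x n = aeval x b * (aeval x (derivative g) * y) := hn
  refine ⟨n, -(aeval x q * y), ?_⟩
  rw [hn']
  linear_combination (-y) * hev

/-- a prime which does not divide the discriminant is unramified -/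
theorem radical_of {p : ℕ} [hp : Fact p.Prime] {g : ℤ[X]} (hg : g.Monic) {K : Type} [Field K]
    [NumberField K] {θ : K} (h : aeval θ g = 0) (hd : Module.finrank ℚ K = g.natDegree)
    (ht : IntermediateField.adjoin ℚ {θ} = ⊤)
    (hsep : (g.map (Int.castRingHom (ZMod p))).Separable) :
    (Ideal.span {((p : ℕ) : 𝓞 K)}).IsRadical := by
  rintro y ⟨k, hk⟩
  rw [Ideal.mem_span_singleton] at hk ⊢
  rcases Nat.eq_zero_or_pos k with rfl | hk0
  · rw [pow_zero] at hk
    exact hk.trans (one_dvd y)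
  set x : 𝓞 K := PB.th hg h with hx
  have hgx : aeval x g = 0 := by
    apply RingOfIntegers.ext
    rw [aeval_def, PB.th_eval, h]
    rfl
  obtain ⟨n, hn⟩ := exists_approx (p := p) hg h hd ht hsep y
  have h1 : ((p : ℕ) : 𝓞 K) ∣ aeval x (n ^ k) := by
    rw [map_pow]
    have h2 : ((p : ℕ) : 𝓞 K) ∣ y ^ k - (aeval x n) ^ k := hn.trans (sub_dvd_pow_sub_pow _ _ _)
    have h3 := dvd_sub hk h2
    rwa [sub_sub_cancel] at h3
  obtain ⟨z, hz⟩ := h1
  have h4 : ((p : ℕ) : 𝓞 K) * z = aeval (PB.th hg h) (n ^ k %ₘ g) := by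
    have h5 := congrArg (aeval x) (Polynomial.modByMonic_add_div (n ^ k) g)
    rw [map_add, map_mul, hgx, zero_mul, add_zero] at h5
    rw [← hx, h5, ← hz]
  have h6 := pmax hg h hd ht hsep (n ^ k %ₘ g) (degree_modByMonic_lt _ hg) z h4
  have h7 : (n ^ k %ₘ g).map (Int.castRingHom (ZMod p)) = 0 := by
    ext1 j
    rw [coeff_map, coeff_zero]
    exact (ZMod.intCast_zmod_eq_zero_iff_dvd _ _).2 (h6 j)
  have h8 : g.map (Int.castRingHom (ZMod p)) ∣ (n.map (Int.castRingHom (ZMod p))) ^ k := by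
    have h9 := congrArg (Polynomial.map (Int.castRingHom (ZMod p)))
      (Polynomial.modByMonic_add_div (n ^ k) g)
    rw [Polynomial.map_add, Polynomial.map_mul, h7, zero_add, Polynomial.map_pow] at h9
    rw [← h9]
    exact dvd_mul_right _ _
  have h10 : g.map (Int.castRingHom (ZMod p)) ∣ n.map (Int.castRingHom (ZMod p)) :=
    (hsep.squarefree.dvd_pow_iff_dvd hk0.ne').1 h8
  obtain ⟨u, hu⟩ := h10
  obtain ⟨u, rfl⟩ := Polynomial.map_surjective (Int.castRingHom (ZMod p)) ZMod.intCast_surjective u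
  have h11 : C (p : ℤ) ∣ n - g * u := by
    rw [Polynomial.C_dvd_iff_dvd_coeff]
    intro i
    rw [← ZMod.intCast_zmod_eq_zero_iff_dvd]
    have h2 : (((n - g * u).coeff i : ℤ) : ZMod p) =
        ((n - g * u).map (Int.castRingHom (ZMod p))).coeff i := by
      rw [coeff_map]; rfl
    rw [h2, Polynomial.map_sub, Polynomial.map_mul, ← hu, sub_self, coeff_zero]
  obtain ⟨v, hv⟩ := h11
  have h12 : aeval x n = (p : 𝓞 K) * aeval x v := by
    have h13 := congrArg (aeval x) hv
    rw [map_sub, map_mul, map_mul, hgx, zero_mul, sub_zero, aeval_C] at h13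
    simpa using h13
  have h14 := dvd_add hn (⟨aeval x v, h12⟩ : ((p : ℕ) : 𝓞 K) ∣ aeval x n)
  rwa [sub_add_cancel] at h14

end Pool.Agent.R89.UP
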