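import Mathlib
import Pool.Agent.R89.UP.Main
import Pool.Agent.R89.UP.Triv4
import Pool.Agent.R89.UP.Triv5
import Pool.Agent.Y789.SG.Real

/-!
# Triviality of the normalised regulator in the families of totally real fields
-/

set_option autoImplicit false

namespace Pool.Agent.R89.UP

open Polynomial NumberField Pool.Agent.H33R4
open Pool.Agent.H637R2.Leo (Leopoldt)

/-- Every unit of `K` which is congruent to `1` modulo `p²` is the `p`-th power of a unit of `K`.
For an odd prime `p` which is unramified in `K` and for which Leopoldt's conjecture holds this says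
that the normalised `p`-adic regulator of `K` is trivial. -/
def RegulatorTrivial (K : Type) [Field K] [NumberField K] (p : ℕ) : Prop :=
  ∀ ε : (𝓞 K)ˣ, ((p : ℕ) : 𝓞 K) ^ 2 ∣ (ε : 𝓞 K) - 1 → ∃ μ : (𝓞 K)ˣ, μ ^ p = ε

section up

variable {p : ℕ} [hp : Fact p.Prime] {F K : Type} [Field F] [NumberField F] [Field K]
  [NumberField K] [Algebra F K]

omit [NumberField F] [NumberField K] in
theorem coe_map (x : 𝓞 F) : ((algebraMap (𝓞 F) (𝓞 K) x : 𝓞 K) : K) = algebraMap F K (x : F) := rfl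

omit [NumberField F] [NumberField K] in
theorem dvd_desc (x y : 𝓞 F) (hx : x ≠ 0)
    (h : algebraMap (𝓞 F) (𝓞 K) x ∣ algebraMap (𝓞 F) (𝓞 K) y) : x ∣ y := by
  obtain ⟨z, hz⟩ := h
  have hx' : (x : F) ≠ 0 := by
    intro h0
    exact hx (RingOfIntegers.ext h0)
  have h1 : algebraMap F K (y : F) = algebraMap F K (x : F) * (z : K) := by
    have h2 := congrArg (fun w : 𝓞 K => (w : K)) hz
    simp only [map_mul] at h2
    exact h2
  have hzK : (z : K) = algebraMap F K ((y : F) / (x : F)) := by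
    have hxK : algebraMap F K (x : F) ≠ 0 := by
      rw [Ne, map_eq_zero]; exact hx'
    rw [map_div₀, h1, mul_div_cancel_left₀ _ hxK]
  have hint : IsIntegral ℤ ((y : F) / (x : F)) := by
    rw [← isIntegral_algebraMap_iff (algebraMap F K).injective, ← hzK]
    exact RingOfIntegers.isIntegral_coe z
  refine ⟨⟨(y : F) / x, hint⟩, RingOfIntegers.ext ?_⟩
  change (y : F) = (x : F) * ((y : F) / (x : F))
  field_simp

variable {r : ℕ} (E : Fin r → (𝓞 F)ˣ) (h1 : ∀ i, E i ∈ unitsOne (((p : ℕ) : 𝓞 F)))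
  (hB : ∀ c : Fin r → ℤ, ((p : ℕ) : 𝓞 F) ^ 2 ∣ ((∏ i, E i ^ c i : (𝓞 F)ˣ) : 𝓞 F) - 1 →
    ∀ i, (p : ℤ) ∣ c i)

omit [NumberField F] [NumberField K] in
theorem map_prod_units (c : Fin r → ℤ) :
    ((∏ i, (Units.map (algebraMap (𝓞 F) (𝓞 K)).toMonoidHom (E i)) ^ c i : (𝓞 K)ˣ) : 𝓞 K) - 1 =
      algebraMap (𝓞 F) (𝓞 K) (((∏ i, E i ^ c i : (𝓞 F)ˣ) : 𝓞 F) - 1) := by
  have h2 : ∏ i, (Units.map (algebraMap (𝓞 F) (𝓞 K)).toMonoidHom (E i)) ^ c i =
      Units.map (algebraMap (𝓞 F) (𝓞 K)).toMonoidHom (∏ i, E i ^ c i) := by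
    rw [map_prod]
    exact Finset.prod_congr rfl fun i _ => (map_zpow _ _ _).symm
  rw [h2, map_sub, map_one]
  rfl

include h1 hB

theorem leo_up (hodd : p ≠ 2) (hL : Leopoldt F p) (hr : Units.rank K = r) : Leopoldt K p := by
  have hp0 : ((p : ℕ) : 𝓞 F) ≠ 0 := by exact_mod_cast hp.out.ne_zero
  refine PB.leopoldt_of hr p
    (fun i => Units.map (algebraMap (𝓞 F) (𝓞 K)).toMonoidHom (E i)) ?_
  intro c w hlim hdiv
  refine hL r E (fun i => ?_) (fun c hc => indep E h1 hB hodd c hc) w c hlim (fun N => ?_)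
  · exact Ideal.le_radical (Ideal.mem_span_singleton.2 (h1 i))
  · filter_upwards [hdiv N] with k hk
    rw [map_prod_units E (c k)] at hk
    apply dvd_desc (K := K) _ _ (pow_ne_zero _ hp0)
    rw [map_pow, map_natCast]
    exact hk

theorem triv_up (hodd : p ≠ 2) (hr : Units.rank K = r) : RegulatorTrivial K p := by
  have hp0 : ((p : ℕ) : 𝓞 F) ≠ 0 := by exact_mod_cast hp.out.ne_zero
  intro ε hε
  refine pth_power (fun i => Units.map (algebraMap (𝓞 F) (𝓞 K)).toMonoidHom (E i)) ?_ ?_ hodd hr ε hε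
  · intro i
    obtain ⟨u, hu⟩ := h1 i
    refine ⟨algebraMap (𝓞 F) (𝓞 K) u, ?_⟩
    have h2 := congrArg (algebraMap (𝓞 F) (𝓞 K)) hu
    rw [map_sub, map_one, map_mul, map_natCast] at h2
    exact h2
  · intro c hc
    rw [map_prod_units E c] at hc
    apply hB c
    apply dvd_desc (K := K) _ _ (pow_ne_zero _ hp0)
    rw [map_pow, map_natCast]
    exact hc

end up

theorem rank_real (d : ℕ) (F : Type) [Field F] [NumberField F] [IsTotallyReal F]
    (hF : Module.finrank ℚ F = d) : Units.rank F = d - 1 := by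
  have h1 := InfinitePlace.card_add_two_mul_card_eq_rank F
  have h2 : InfinitePlace.nrComplexPlaces F = 0 := IsTotallyReal.nrComplexPlaces_eq_zero F
  unfold Units.rank
  rw [InfinitePlace.card_eq_nrRealPlaces_add_nrComplexPlaces, h2]
  omega

theorem rank_cm (d : ℕ) (K : Type) [Field K] [NumberField K] [IsTotallyComplex K]
    (hK : Module.finrank ℚ K = 2 * d) : Units.rank K = d - 1 := by
  have h1 := InfinitePlace.card_add_two_mul_card_eq_rank K
  have h2 : InfinitePlace.nrRealPlaces K = 0 := IsTotallyComplex.nrRealPlaces_eq_zero K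
  unfold Units.rank
  rw [InfinitePlace.card_eq_nrRealPlaces_add_nrComplexPlaces, h2]
  omega

theorem main_fine (r₁ r₂ : ℕ) (h : 1 ≤ r₁ + r₂) (a : Fin r₁ → ℤ)
    (b c : Fin r₂ → ℤ) (ha : Function.Injective a)
    (hbc : Function.Injective (fun k => (b k, c k))) (hc : ∀ k, 0 < c k) :
    ∃ Δ : ℤ[X], Δ ≠ 0 ∧ ∀ (p : ℕ) [Fact p.Prime], p ≠ 2 → ∃ B : Finset (ZMod (p ^ 2)),
      B.card ≤ (r₁ + r₂ - 1) * p ∧ ∀ t : ℤ, ¬ (p : ℤ) ∣ Δ.eval t → ((t : ℤ) : ZMod (p ^ 2)) ∉ B →
        (spec ((t : ℤ) : ZMod p) (fam a b c)).Separable ∧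
        Fine p (fam a b c) (r₁ + r₂ - 1) t := by
  classical
  have hfm := fam_monic a b c h
  obtain ⟨T₁, hT₁⟩ := irr_proof r₁ r₂ a b c ha hbc hc h
  have hne : Nonempty (Fin r₁ ⊕ Fin r₂) := by
    rcases Nat.eq_zero_or_pos r₁ with h0 | h0
    · exact ⟨Sum.inr ⟨0, by omega⟩⟩
    · exact ⟨Sum.inl ⟨0, h0⟩⟩
  obtain ⟨i₀⟩ := hne
  have hcard : Fintype.card {i : Fin r₁ ⊕ Fin r₂ // i ≠ i₀} = r₁ + r₂ - 1 := by
    rw [Fintype.card_subtype_compl]
    simp
  let eq : {i : Fin r₁ ⊕ Fin r₂ // i ≠ i₀} ≃ Fin (r₁ + r₂ - 1) := Fintype.equivFinOfCardEq hcard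
  have hpos : 0 < (fam a b c).natDegree := by
    rw [fam_natDegree, Polynomial.natDegree_prod_of_monic _ _ (fun i _ => (fac_monic a b c i).1)]
    apply Finset.sum_pos'
    · intro i _
      exact Nat.zero_le _
    · exact ⟨i₀, Finset.mem_univ _, Polynomial.natDegree_pos_iff_degree_pos.2 (fac_monic a b c i₀).2⟩
  have hsep : ((fam a b c).map (algebraMap ℤ[X] (FractionRing ℤ[X]))).Separable := by
    have h1 : Irreducible (spec (T₁ : ℤ) (fam a b c)) := hT₁ T₁ (le_abs_self _)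
    have h2 : Irreducible (fam a b c) :=
      Polynomial.Monic.irreducible_of_irreducible_map
        (Polynomial.eval₂RingHom (Int.castRingHom ℤ) (T₁ : ℤ)) _ hfm h1
    have h3 : Irreducible ((fam a b c).map (algebraMap ℤ[X] (FractionRing ℤ[X]))) :=
      (Polynomial.Monic.irreducible_iff_irreducible_map_fraction_map hfm).1 h2
    have _ : CharZero (FractionRing ℤ[X]) :=
      charZero_of_injective_algebraMap (IsFractionRing.injective ℤ[X] (FractionRing ℤ[X]))
    exact h3.separable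
  obtain ⟨Δ, hΔ0, hΔ⟩ := exists_delta (fam a b c) hfm hsep
    (fun k => fac a b c (eq.symm k).1) (fun k => ∏ l ∈ Finset.univ.erase (eq.symm k).1, fac a b c l)
    (fun g hg => fam_W a b c ha hbc hc h i₀ (fun k => (eq.symm k).1)
      (fun x y hxy => eq.symm.injective (Subtype.ext hxy)) (fun k => (eq.symm k).2) g hg)
  refine ⟨Δ, hΔ0, fun p _ hodd => ?_⟩
  obtain ⟨B, hB1, hB2⟩ := prime_fine p hodd (fam a b c) hfm hpos
    (fun k => fac a b c (eq.symm k).1) (fun k => ∏ l ∈ Finset.univ.erase (eq.symm k).1, fac a b c l)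
    (fun k => by
      rw [Finset.mul_prod_erase _ _ (Finset.mem_univ _)]
      exact dvd_rfl) Δ (fun t₀ => hΔ p t₀)
  exact ⟨B, hB1, fun t ht hB => ⟨(hΔ p t ht).1, hB2 t ht hB⟩⟩

/-- **Main theorem.** -/
theorem main_triv (d : ℕ) (hd : 1 ≤ d) (a : Fin d → ℤ) (ha : Function.Injective a) :
    ∃ Δ : ℤ[X], Δ ≠ 0 ∧ ∀ (p : ℕ) [Fact p.Prime], p ≠ 2 → ∃ B : Finset (ZMod (p ^ 2)),
      B.card ≤ (d - 1) * p ∧ ∀ t : ℤ, 3 ≤ |t| → ¬ (p : ℤ) ∣ Δ.eval t →
      ((t : ℤ) : ZMod (p ^ 2)) ∉ B →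
      ∀ (F : Type) [Field F] [NumberField F] (θ : F),
        ∏ i, (θ - ((a i * t : ℤ) : F)) = 1 → IntermediateField.adjoin ℚ {θ} = ⊤ →
        Module.finrank ℚ F = d ∧ IsTotallyReal F ∧
        (Ideal.span {((p : ℕ) : 𝓞 F)}).IsRadical ∧ Leopoldt F p ∧ RegulatorTrivial F p ∧
        ∀ (K : Type) [Field K] [NumberField K] [IsTotallyComplex K] [Algebra F K],
          Module.finrank F K = 2 → Leopoldt K p ∧ RegulatorTrivial K p := by
  obtain ⟨Δ, hΔ, h⟩ := main_fine d 0 (by omega) a (fun i => i.elim0) (fun i => i.elim0) ha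
    (fun i => i.elim0) (fun i => i.elim0)
  refine ⟨Δ, hΔ, fun p _ hodd => ?_⟩
  obtain ⟨B, hB1, hB2⟩ := h p hodd
  refine ⟨B, by simpa using hB1, fun t ht3 hnd hB F _ _ θ hθ hgen => ?_⟩
  have hgap : ∀ i j, i ≠ j → 3 ≤ |a i * t - a j * t| := by
    intro i j hij
    rw [← sub_mul, abs_mul]
    have h1 : 1 ≤ |a i - a j| := Int.one_le_abs (sub_ne_zero.2 fun h => hij (ha h))
    nlinarith [abs_nonneg t]
  have hdeg : Module.finrank ℚ F = d := by
    refine Pool.Agent.H637R2.Leo.finrank_eq hd (fun i => a i * t) ?_ θ hθ hgen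
    intro i j hij
    by_contra hne
    have h := hgap i j hne
    simp only at hij
    rw [hij, sub_self, abs_zero] at h
    omega
  have hreal : IsTotallyReal F :=
    Pool.Agent.Y789.SG.totally_real hd (fun i => a i * t) hgap F θ hθ hgen
  set f := fam a (fun i : Fin 0 => i.elim0) (fun i : Fin 0 => i.elim0) with hf
  have hfm : f.Monic := fam_monic a _ _ (by omega)
  have h1 : spec t f = ∏ i, (X - C (a i * t)) - 1 := by
    rw [hf]
    unfold fam spec
    rw [Polynomial.map_sub, Polynomial.map_one, Polynomial.map_prod, Fintype.prod_sum_type]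
    simp [fac]
  have hθ' : aeval θ (spec t f) = 0 := by
    rw [h1, map_sub, map_one, map_prod, sub_eq_zero, ← hθ]
    refine Finset.prod_congr rfl fun i _ => ?_
    simp
  have hfd : f.natDegree = d := by
    rw [hf, fam_natDegree, Polynomial.natDegree_prod_of_monic _ _ (fun i _ => (fac_monic _ _ _ i).1),
      Fintype.sum_sum_type]
    have h5 : ∀ i : Fin d, (fac a (fun i : Fin 0 => i.elim0) (fun i : Fin 0 => i.elim0)
        (Sum.inl i)).natDegree = 1 := fun i => natDegree_X_sub_C _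
    rw [Finset.sum_congr rfl fun i _ => h5 i]
    simp
  obtain ⟨hs, hfine⟩ := hB2 t hnd hB
  obtain ⟨hL, E, hE1, hE2⟩ := hfine F θ hθ' (by rw [hfd, hdeg]) hgen
  have hg : (spec t f).Monic := spec_monic t hfm
  have hgd : (spec t f).natDegree = f.natDegree := hfm.natDegree_map _
  have hgz : (spec t f).map (Int.castRingHom (ZMod p)) = spec ((t : ℤ) : ZMod p) f := by
    ext1 j
    rw [coeff_map, spec_coeff_int, spec_coeff]
    rfl
  have hLF : Leopoldt F p := hL (by rw [rank_real d F hdeg]; simp)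
  refine ⟨hdeg, hreal, ?_, hLF, ?_, ?_⟩
  · exact radical_of hg hθ' (by rw [hgd, hfd, hdeg]) hgen (by rw [hgz]; exact hs)
  · exact fun ε hε => pth_power E hE1 hE2 hodd (by rw [rank_real d F hdeg]; simp) ε hε
  · intro K _ _ _ _ hFK
    have hK : Module.finrank ℚ K = 2 * d := by
      rw [← Module.finrank_mul_finrank ℚ F K, hdeg, hFK, mul_comm]
    have hr : Units.rank K = d + 0 - 1 := by rw [rank_cm d K hK]; simp
    exact ⟨leo_up E hE1 hE2 hodd hLF hr, triv_up E hE1 hE2 hodd hr⟩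

end Pool.Agent.R89.UP
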